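import Pool.Agent.NNq.QDef

/-!
Module FB.  Bounds of the potential `f`.

* `f_le_w`: `f_eq`, `∑ val` (`sum_val`), `conc_const` for `(S.N i).erase w` and `k x = val x - 2`, `l = 1`
  (sum `n - (val w - 2)`).
* the other ones: `f_le` (for `f_at`, `f_t5`, `f_c6_13`, `f_big`), `f_le_w` with `w` = the hub (`f_t4`), or
  with `w` a node of maximal valence (`Finset.exists_max_image`; a small number of cases for `val w`, and
  `val w - 2 ≥ n / |N i|`), and `phi k = k / (2 (k + 2))`, `norm_num`.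
* `f_c6_4`: all valences 3 or 4: `phi (val x - 2) = 1/12 + (val x - 2)/12` (equality), sum `6/12 + 11/12`.
-/

namespace Pool.Agent.NNb

namespace Sys

variable {ι ν : Type}

private theorem fb_sum [DecidableEq ν] {n : ℕ} (S : Sys ι ν 4 n) {i : ι} {w : ν} (hw : w ∈ S.N i) :
    (S.val w - 2) + ∑ x ∈ (S.N i).erase w, (S.val x - 2) = n :=
  (Finset.add_sum_erase (S.N i) (fun x => S.val x - 2) hw).trans (S.sum_val i)

private theorem fb_le {n : ℕ} (S : Sys ι ν 4 n) {i : ι} {w : ν} (hw : w ∈ S.N i) :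
    (S.val w - 2) + ((S.N i).card - 1) ≤ n := by
  classical
  have h1 := fb_sum S hw
  have h2 : ((S.N i).erase w).card ≤ ∑ x ∈ (S.N i).erase w, (S.val x - 2) := by
    rw [Finset.card_eq_sum_ones]
    refine Finset.sum_le_sum fun x hx => ?_
    have := S.val_ge (Finset.mem_of_mem_erase hx)
    omega
  rw [Finset.card_erase_of_mem hw] at h2
  omega

theorem f_le_w {n : ℕ} (S : Sys ι ν 4 n) {i : ι} {w : ν} (hw : w ∈ S.N i) :
    S.f i ≤ 1 - phi (S.val w - 2) - ((S.N i).card - 2 : ℝ) / 6 -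
      phi (n - (S.val w - 2) - ((S.N i).card - 2)) := by
  classical
  have hK := S.card_ge i
  have hcard : ((S.N i).erase w).card = (S.N i).card - 1 := Finset.card_erase_of_mem hw
  have hne : ((S.N i).erase w).Nonempty := Finset.card_pos.1 (by omega)
  have hs : ∑ x ∈ (S.N i).erase w, (S.val x - 2) = n - (S.val w - 2) := by
    have h4 := fb_sum S hw
    omega
  have h := conc_const ((S.N i).erase w) (fun x => S.val x - 2) 1 (n - (S.val w - 2)) hne
    (fun x hx => by
      have := S.val_ge (Finset.mem_of_mem_erase hx)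
      omega) hs
  rw [f_eq, ← Finset.add_sum_erase (S.N i) (fun x => phi (S.val x - 2)) hw]
  rw [hcard, Nat.cast_sub (by omega)] at h
  have e1 : (n - (S.val w - 2) - ((S.N i).card - 1 - 1) * 1) =
      n - (S.val w - 2) - ((S.N i).card - 2) := by omega
  have e2 : phi 1 = 1 / 6 := by unfold phi; norm_num
  rw [e1, e2] at h
  push_cast at h
  linarith

theorem f_at {n : ℕ} (S : Sys ι ν 4 n) (hn : 11 ≤ n) {i : ι} (h : S.IsAt i) :
    S.f i ≤ 1 / ((n : ℝ) - 1) := by
  obtain ⟨g, hg, hv⟩ := h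
  have hK := S.card_ge i
  have h1 := fb_le S hg
  have hK4 : (S.N i).card = 4 := by omega
  have h2 := S.f_le i (by omega)
  rw [hK4] at h2
  have e : (n : ℝ) - (4 : ℕ) + 3 = n - 1 := by push_cast; ring
  rw [e] at h2
  push_cast at h2
  linarith

theorem f_t4 {n : ℕ} (S : Sys ι ν 4 n) (hn : 11 ≤ n) {i : ι} (h : S.T4 i) :
    S.f i ≤ 1 / ((n : ℝ) - 2) - 1 / 12 := by
  obtain ⟨hK, w, hw, hv⟩ := h
  have h1 := f_le_w S hw
  rw [hK] at h1
  have e1 : S.val w - 2 = n - 4 := by omega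
  have e2 : n - (n - 4) - (4 - 2) = 2 := by omega
  rw [e1, e2, phi_eq (n - 4), Nat.cast_sub (by omega)] at h1
  have e3 : phi 2 = 1 / 4 := by unfold phi; norm_num
  have e4 : (n : ℝ) - (4 : ℕ) + 2 = n - 2 := by push_cast; ring
  rw [e3, e4] at h1
  push_cast at h1
  linarith

theorem f_t5 {n : ℕ} (S : Sys ι ν 4 n) (hn : 11 ≤ n) {i : ι} (h : S.T5 i) :
    S.f i ≤ 1 / ((n : ℝ) - 2) - 1 / 6 := by
  have h2 := S.f_le i (by rw [h.1]; omega)
  rw [h.1] at h2
  have e : (n : ℝ) - (5 : ℕ) + 3 = n - 2 := by push_cast; ring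
  rw [e] at h2
  push_cast at h2
  linarith

/-- a tile without nodes of valence `n - 1`, `n - 2` has only valences `≤ n - 3` -/
theorem val_plain {n : ℕ} (S : Sys ι ν 4 n) {i : ι} (h1 : ¬ S.IsAt i) (h2 : ¬ S.IsH i) :
    ∀ x ∈ S.N i, S.val x + 3 ≤ n := by
  intro x hx
  have hK := S.card_ge i
  have h3 := fb_le S hx
  have h4 := S.val_ge hx
  have h5 : S.val x + 1 ≠ n := fun h => h1 ⟨x, hx, h⟩
  have h6 : S.val x + 2 ≠ n := fun h => h2 ⟨x, hx, h⟩
  omega

/-- there is a node with `val - 2` at least the mean -/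
private theorem fb_mean {n : ℕ} (S : Sys ι ν 4 n) (i : ι) (M : ℕ) (h : (S.N i).card * M < n) :
    ∃ w ∈ S.N i, M + 3 ≤ S.val w := by
  by_contra hcon
  push Not at hcon
  have h1 : ∑ x ∈ S.N i, (S.val x - 2) ≤ ∑ _x ∈ S.N i, M := by
    refine Finset.sum_le_sum fun x hx => ?_
    have := hcon x hx
    omega
  rw [S.sum_val, Finset.sum_const, smul_eq_mul] at h1
  omega

theorem f_c4_11 (S : Sys ι ν 4 11) {i : ι} (h1 : ¬ S.IsAt i) (h2 : ¬ S.IsH i)
    (hc : (S.N i).card = 4) : S.f i ≤ -(1 / 120) := by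
  obtain ⟨w, hw, hM⟩ := fb_mean S i 2 (by rw [hc]; norm_num)
  have h3 := val_plain S h1 h2 w hw
  have h4 := f_le_w S hw
  rw [hc] at h4
  refine h4.trans ?_
  generalize S.val w = v at *
  have : v ≤ 8 := by omega
  interval_cases v <;> simp only [phi] <;> norm_num

theorem f_c4_13 (S : Sys ι ν 4 13) {i : ι} (h1 : ¬ S.IsAt i) (h2 : ¬ S.IsH i)
    (hc : (S.N i).card = 4) : S.f i ≤ -(1 / 30) := by
  obtain ⟨w, hw, hM⟩ := fb_mean S i 3 (by rw [hc]; norm_num)
  have h3 := val_plain S h1 h2 w hw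
  have h4 := f_le_w S hw
  rw [hc] at h4
  refine h4.trans ?_
  generalize S.val w = v at *
  have : v ≤ 10 := by omega
  interval_cases v <;> simp only [phi] <;> norm_num

theorem f_c5_11 (S : Sys ι ν 4 11) {i : ι} (h1 : ¬ S.IsAt i) (h2 : ¬ S.IsH i)
    (hc : (S.N i).card = 5) : S.f i ≤ -(1 / 8) ∧ ∃ w ∈ S.N i, 5 ≤ S.val w := by
  obtain ⟨w, hw, hM⟩ := fb_mean S i 2 (by rw [hc]; norm_num)
  refine ⟨?_, w, hw, hM⟩
  have h3 := val_plain S h1 h2 w hw
  have h4 := f_le_w S hw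
  rw [hc] at h4
  refine h4.trans ?_
  generalize S.val w = v at *
  have : v ≤ 8 := by omega
  interval_cases v <;> simp only [phi] <;> norm_num

theorem f_c5_13 (S : Sys ι ν 4 13) {i : ι} (h1 : ¬ S.IsAt i) (h2 : ¬ S.IsH i)
    (hc : (S.N i).card = 5) : S.f i ≤ -(3 / 20) ∧ ∃ w ∈ S.N i, 5 ≤ S.val w := by
  obtain ⟨w, hw, hM⟩ := fb_mean S i 2 (by rw [hc]; norm_num)
  refine ⟨?_, w, hw, hM⟩
  have h3 := val_plain S h1 h2 w hw
  have h4 := f_le_w S hw
  rw [hc] at h4
  refine h4.trans ?_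
  generalize S.val w = v at *
  have : v ≤ 10 := by omega
  interval_cases v <;> simp only [phi] <;> norm_num

/-- six nodes, `n = 11`: three cases -/
theorem f_c6_11 (S : Sys ι ν 4 11) {i : ι} (hc : (S.N i).card = 6) :
    (S.f i ≤ -(5 / 24) ∧ ∃ w ∈ S.N i, 5 ≤ S.val w ∧ ∀ x ∈ S.N i, x ≠ w → S.val x = 3) ∨
      (S.f i ≤ -(23 / 84) ∧ ∃ w ∈ S.N i, 5 ≤ S.val w) ∨ S.f i ≤ -(5 / 12) := by
  classical
  by_cases hex : ∃ w ∈ S.N i, 5 ≤ S.val w
  · obtain ⟨w, hw, hM⟩ := hex
    have h3 := fb_le S hw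
    have h4 := f_le_w S hw
    rw [hc] at h3 h4
    by_cases h8 : S.val w = 8
    · left
      refine ⟨?_, w, hw, hM, ?_⟩
      · refine h4.trans ?_
        rw [h8]
        simp only [phi]
        norm_num
      · intro x hx hxw
        by_contra hx3
        have hx' : x ∈ (S.N i).erase w := Finset.mem_erase.2 ⟨hxw, hx⟩
        have h5 : ∑ y ∈ (S.N i).erase w, (S.val y - 2) = 5 := by
          have h6 := fb_sum S hw
          omega
        have h7 : ∑ y ∈ (S.N i).erase w, 1 < ∑ y ∈ (S.N i).erase w, (S.val y - 2) := by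
          refine Finset.sum_lt_sum (fun y hy => ?_) ⟨x, hx', ?_⟩
          · have := S.val_ge (Finset.mem_of_mem_erase hy)
            omega
          · have := S.val_ge hx
            omega
        rw [h5, Finset.sum_const, Finset.card_erase_of_mem hw, hc] at h7
        norm_num at h7
    · right
      left
      refine ⟨?_, w, hw, hM⟩
      refine h4.trans ?_
      generalize S.val w = v at *
      have : v ≤ 7 := by omega
      interval_cases v <;> simp only [phi] <;> norm_num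
  · right
    right
    push Not at hex
    rw [f_eq]
    have h5 : ∑ x ∈ S.N i, phi (S.val x - 2) =
        ∑ x ∈ S.N i, (1 / 12 + ((S.val x - 2 : ℕ) : ℝ) / 12) := by
      refine Finset.sum_congr rfl fun x hx => ?_
      have h6 := hex x hx
      have h7 := S.val_ge hx
      generalize S.val x = v at *
      interval_cases v <;> simp only [phi] <;> norm_num
    rw [h5, Finset.sum_add_distrib, Finset.sum_const, hc, ← Finset.sum_div, ← Nat.cast_sum,
      S.sum_val]
    norm_num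

theorem f_c6_13 (S : Sys ι ν 4 13) {i : ι} (hc : (S.N i).card = 6) :
    S.f i ≤ -(7 / 30) ∧ ∃ w ∈ S.N i, 5 ≤ S.val w := by
  obtain ⟨w, hw, hM⟩ := fb_mean S i 2 (by rw [hc]; norm_num)
  refine ⟨?_, w, hw, hM⟩
  have h2 := S.f_le i (by omega)
  rw [hc] at h2
  refine h2.trans ?_
  norm_num

/-- at least seven nodes: `f ≤ 2/3 - K/6 + 1/(n-K+3)`, and the number `K / 2` (rounded down) times
`57/500` (`n = 11`), `17/200` (`n = 13`) is smaller -/
theorem f_big_11 (S : Sys ι ν 4 11) {i : ι} (hc : 7 ≤ (S.N i).card) (k : ℕ)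
    (hk : 2 * k ≤ (S.N i).card) : S.f i + k * (57 / 500 : ℝ) ≤ -(1 / 100) := by
  have h2 := S.f_le i (by omega)
  have h3 := S.card_le i
  have h4 : k ≤ (S.N i).card / 2 := by omega
  generalize (S.N i).card = K at *
  clear hk
  interval_cases K <;> norm_num at h2 h4 ⊢ <;>
    (have h5 := (Nat.cast_le (α := ℝ)).2 h4; push_cast at h5; linarith)

theorem f_big_13 (S : Sys ι ν 4 13) {i : ι} (hc : 7 ≤ (S.N i).card) (k : ℕ)
    (hk : 2 * k ≤ (S.N i).card) : S.f i + k * (17 / 200 : ℝ) ≤ -(1 / 100) := by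
  have h2 := S.f_le i (by omega)
  have h3 := S.card_le i
  have h4 : k ≤ (S.N i).card / 2 := by omega
  generalize (S.N i).card = K at *
  clear hk
  interval_cases K <;> norm_num at h2 h4 ⊢ <;>
    (have h5 := (Nat.cast_le (α := ℝ)).2 h4; push_cast at h5; linarith)

end Sys

end Pool.Agent.NNb
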