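import Pool.Agent.NNq.Qty

/-!
Module JA.  `isAt_tc`: the outer tile `u` at the spoke `x` of the hub `h` contains `g`, `val g = n - 1`.

`u` has four nodes and the others have valence 3 (`hub4_tile_e`); `g` is not a partner of `x` (`isO_val`),
so `u` is a 4-cycle `x, q1, g, q2` (`HUB4_quad`).  Let `t ≠ u` contain `x`; `t` contains `h`
(`isO_part`), the other partner `q` of `x` on `t` is a partner of `x` on `u` (`isO_across`), so `q` is
`q1` or `q2`, `val q = 3`, and `q, g` are partners on `u`.  `g ∉ N t` (`big_unique`: `t` contains `h`,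
`h ∉ N u`).  The tile `v ≠ u` with `q, g ∈ N v` (`part_other`) is not `t`; the tiles at `q` are `u, t, v`
(`HUB4_four`), so `IsO t q g`, i.e. `IsX t q` (`isX_iff`); `isX_card_e`: `|N t| ≥ 5`, so `= 5`
(`big_tile`): `T5 t`, `TC t`.
-/

namespace Pool.Agent.NNb

namespace Sys

variable {ι ν : Type} {n : ℕ} (S : Sys ι ν 4 n)

private theorem JA_key (hn : 11 ≤ n) {u t : ι} {x h g q : ν} (hh : S.val h + 2 = n)
    (hO : S.IsO u x h) (hg : g ∈ S.N u) (hgv : S.val g + 1 = n) (ht : t ≠ u)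
    (hp : Part S.N t h x) (hq : Part S.N t x q) (hqg : Part S.N u q g) : S.TC t := by
  obtain ⟨hc4, hval⟩ := S.hub4_tile_e hn hg hgv
  have hgh : g ≠ h := fun h1 => hO.2.2.1 (h1 ▸ hg)
  have hgt : g ∉ S.N t := fun h1 => hgh (S.big_unique hn (Or.inl hgv) (Or.inr hh) h1 hp.1)
  have hv : S.val q = 3 := hval q hqg.1 hqg.2.2.1
  obtain ⟨v, hvu, hpv, -⟩ := S.part_other hqg
  have hvt : v ≠ t := fun h1 => hgt (h1 ▸ hpv.2.1)
  have hOt : S.IsO t q g := by
    refine ⟨hq.2.1, hv, hgt, fun i hi hit => ?_⟩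
    rcases S.HUB4_four hv hqg.1 hq.2.1 hpv.1 ((S.mem_tl i q).1 hi) ht.symm hvu.symm hvt.symm with
      h1 | h1 | h1
    · exact h1 ▸ hg
    · exact absurd h1 hit
    · exact h1 ▸ hpv.2.1
  have hX : S.IsX t q := S.isX_iff.2 ⟨g, hgv, hOt⟩
  have h5 := S.isX_card_e hn hX
  have h6 := (S.big_tile hp.1 hh).1
  refine ⟨⟨by omega, h, hp.1, hh⟩, q, hX⟩

theorem isAt_tc (hn : 11 ≤ n) {u t : ι} {x : ν} (hJ : S.IsJ u x) (hA : S.IsAt u) (ht : t ≠ u)
    (hx : x ∈ S.N t) : S.TC t := by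
  obtain ⟨h, hh, hO⟩ := hJ
  obtain ⟨g, hg, hgv⟩ := hA
  obtain ⟨hc4, hval⟩ := S.hub4_tile_e hn hg hgv
  obtain ⟨t1, t2, q1, q2, h12, h1u, h2u, p1, pq1, n1, p2, pq2, n2, u1, u2, q12, hall, hall2⟩ :=
    S.isO_frame hO
  obtain ⟨y, z, hz, hxy, hzy, hyx, hyq, hyz, hqz, hcov, -, -⟩ := S.HUB4_quad hc4 u1
  have hzq : z = q2 := by
    rcases hall2 z hz with h1 | h1
    · exact absurd h1.symm hqz
    · exact h1
  subst hzq
  have hgx : g ≠ x := by
    rintro rfl
    have := hO.2.1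
    omega
  have hgq : ∀ q, Part S.N u x q → g ≠ q := by
    rintro q hq rfl
    have := S.isO_val hn (Or.inr hh) hO hq
    omega
  have hgy : g = y := by
    rcases hcov g hg with h1 | h1 | h1 | h1
    · exact absurd h1 hgx
    · exact absurd h1 (hgq _ u1)
    · exact h1
    · exact absurd h1 (hgq _ u2)
  subst hgy
  rcases hall t hx with h1 | h1 | h1
  · subst h1
    exact S.JA_key hn hh hO hg hgv ht p1 pq1 hxy
  · subst h1
    exact S.JA_key hn hh hO hg hgv ht p2 pq2 hzy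
  · exact absurd h1 ht

end Sys

end Pool.Agent.NNb
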