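import Pool.Agent.NNq.Qty

/-!
Module JB.  `bj_frame`: the outer tile `u` at the spoke `x` of the hub `h` has four nodes and contains a
hub `w`.

`w ≠ x` and `w` is not a partner of `x` on `u` (`isO_val`), so `u` is a 4-cycle `x, q1, w, q2`
(`HUB4_quad` at `x`) and `val q1 + val q2 = 7` (`sum_val`, `val x = 3`, `val w = n - 2`), so
`{val q1, val q2} = {3, 4}`.  `isO_frame` gives the tiles `t1 ∋ q1`, `t2 ∋ q2` (up to the names of the
partners); by `spoke_q` exactly one of them is of type 33.  `¬ T33 u`: the hub of `u` is `w`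
(`big_unique`), with the partners `q1, q2`, one of valence 4.
-/

namespace Pool.Agent.NNb

namespace Sys

variable {ι ν : Type} {n : ℕ} (S : Sys ι ν 4 n)

theorem bj_frame (hn : 11 ≤ n) {u : ι} {x : ν} (hJ : S.IsJ u x) (hT : S.T4 u) :
    ¬ S.T33 u ∧ ∃ t1 t2, t1 ≠ t2 ∧ t1 ≠ u ∧ t2 ≠ u ∧ x ∈ S.N t1 ∧ x ∈ S.N t2 ∧ S.T33 t1 ∧
      ¬ S.T33 t2 ∧ ∀ i, x ∈ S.N i → i = t1 ∨ i = t2 ∨ i = u := by
  obtain ⟨h, hh, hO⟩ := hJ
  obtain ⟨hc4, w, hw, hwv⟩ := hT
  obtain ⟨t1, t2, q1, q2, h12, h1u, h2u, p1, pq1, n1, p2, pq2, n2, u1, u2, q12, hall, hall2⟩ :=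
    S.isO_frame hO
  obtain ⟨y, z, hz, hxy, hzy, hyx, hyq, hyz, hqz, hcov, -, -⟩ := S.HUB4_quad hc4 u1
  have hzq : z = q2 := by
    rcases hall2 z hz with h1 | h1
    · exact absurd h1.symm hqz
    · exact h1
  subst hzq
  have hx3 := hO.2.1
  have hwx : w ≠ x := by
    rintro rfl
    omega
  have hwq : ∀ q, Part S.N u x q → w ≠ q := by
    rintro q hq rfl
    have := S.isO_val hn (Or.inr hh) hO hq
    omega
  have hwy : w = y := by
    rcases hcov w hw with h1 | h1 | h1 | h1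
    · exact absurd h1 hwx
    · exact absurd h1 (hwq _ u1)
    · exact h1
    · exact absurd h1 (hwq _ u2)
  subst hwy
  have hsum := S.quad_sum u1 hz hxy hyz hyx hqz hcov
  have g1 := S.val_ge u1.2.1
  have g2 := S.val_ge u2.2.1
  refine ⟨?_, ?_⟩
  · rintro ⟨-, w', hw', hwv', hall'⟩
    have : w' = w := S.big_unique hn (Or.inr hwv') (Or.inr hwv) hw' hw
    subst this
    have e1 := hall' q1 (S.part_symm hxy)
    have e2 := hall' z (S.part_symm hzy)
    omega
  · rcases S.spoke_q hn hh p1 hx3 pq1 n1 with e1 | e1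
    · rcases S.spoke_q hn hh p2 hx3 pq2 n2 with e2 | e2
      · omega
      · exact ⟨t1, t2, h12, h1u, h2u, p1.2.1, p2.2.1, e1.1, e2.1, hall⟩
    · rcases S.spoke_q hn hh p2 hx3 pq2 n2 with e2 | e2
      · refine ⟨t2, t1, h12.symm, h2u, h1u, p2.2.1, p1.2.1, e2.1, e1.1, fun i hi => ?_⟩
        rcases hall i hi with h3 | h3 | h3
        · exact Or.inr (Or.inl h3)
        · exact Or.inl h3
        · exact Or.inr (Or.inr h3)
      · omega

end Sys

end Pool.Agent.NNb
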