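import Pool.Agent.NNq.Qty

/-!
Module JC.  `t33_other`: a tile `t` of type 33 with the hub `h` and the spokes `x ≠ x'`; if the outer tile
`u` at `x` has four nodes and a hub, then the outer tile `u'` at `x'` has at least five nodes and contains
no node of valence `≥ n - 2`.

`t` is a 4-cycle `h, x, q, x'`, `val x = val x' = 3`, `val q = 4` (`spoke_q`, `HUB4_quad`).  `q` is a
partner of `x` on `u` and of `x'` on `u'` (`isO_across`).  `u` is a 4-cycle `x, q, w, q2` with a hub `w`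
(`w` is not a partner of `x` by `isO_val`, `w ≠ x`).  `u ≠ u'` (otherwise `t, u` share `x, q, x'`:
`three`).  `link4` at `q` for `u, t, u'`: the fourth tile `F` at `q` shares `r ≠ q` with `u'` and `s ≠ q`
with `u`, `r ≠ s`.  `s` is a partner of `q` on `u`, so `s = x` or `s = w`; `s = x` is impossible (`x, q`
on `t, u, F`: `edge`).  So `w ∈ N F`; `F` is a tile at the hub `w` and contains `q` with `val q = 4`, so
`|N F| = 4` (`big_tile`); `w, q` and `q, r` are partners on `F`, so `F` is a 4-cycle `q, w, z, r` and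
`val r = 3` (`sum_val`: `val r + val z = 6`).  On `u'`: `x', q` and `q, r` are partners, `r ≠ x'` (`edge`:
`x', q` on `t, u', F`).
* `|N u'| = 4` is impossible: then `u'` is a 4-cycle `x', q, r, p` (the triangle `x', q, r` is excluded by
  `no_triangle`), `val p ≤ 4` by `isO_val`, `∑ (val - 2) ≤ 1 + 2 + 1 + 2 < n`.  So `|N u'| ≥ 5`.
* a node `g ∈ N u'` with `val g = n - 1`: `|N u'| = 4` (`hub4_tile_e`); a hub `g ∈ N u'`: `|N u'| = 5` and
  all other nodes have valence 3 (`big_tile`), but `val q = 4`.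
-/

namespace Pool.Agent.NNb

namespace Sys

variable {ι ν : Type} {n : ℕ} (S : Sys ι ν 4 n)

private theorem JC_sum4 {i : ι} {a b c d : ν}
    (hcov : ∀ v, v ∈ S.N i → v = a ∨ v = b ∨ v = c ∨ v = d) (ha : a ∈ S.N i) (hb : b ∈ S.N i)
    (hc : c ∈ S.N i) (hd : d ∈ S.N i) (hab : a ≠ b) (hac : a ≠ c) (had : a ≠ d) (hbc : b ≠ c)
    (hbd : b ≠ d) (hcd : c ≠ d) :
    (S.val a - 2) + (S.val b - 2) + (S.val c - 2) + (S.val d - 2) = n := by
  classical
  have hN : S.N i = {a, b, c, d} := by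
    ext v
    simp only [Finset.mem_insert, Finset.mem_singleton]
    constructor
    · exact hcov v
    · rintro (rfl | rfl | rfl | rfl) <;> assumption
  have h1 := S.sum_val i
  rw [hN, Finset.sum_insert, Finset.sum_insert, Finset.sum_insert, Finset.sum_singleton] at h1
  · omega
  · simpa using hcd
  · simp only [Finset.mem_insert, Finset.mem_singleton, not_or]; exact ⟨hbc, hbd⟩
  · simp only [Finset.mem_insert, Finset.mem_singleton, not_or]; exact ⟨hab, hac, had⟩

theorem t33_other (hn : 11 ≤ n) {t u u' : ι} {h x x' : ν} (ht : S.T33 t) (hh : S.val h + 2 = n)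
    (hp : Part S.N t h x) (hp' : Part S.N t h x') (hxx : x ≠ x') (hO : S.IsO u x h)
    (hT : S.T4 u) (hO' : S.IsO u' x' h) :
    5 ≤ (S.N u').card ∧ ¬ S.IsAt u' ∧ ¬ S.IsH u' := by
  have hB : S.Big h := Or.inr hh
  obtain ⟨q, z, hz, hxq, hzq, hqh, hqx, hqz, hxz, -, -, -⟩ := S.HUB4_quad ht.1 hp
  have hzx : x' = z := by
    rcases S.not_three_partners hp hp' hz with h1 | h1 | h1
    · exact absurd h1 hxx
    · exact h1
    · exact absurd h1 hxz
  subst hzx
  have hvx : S.val x = 3 := hO.2.1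
  have hvx' : S.val x' = 3 := hO'.2.1
  have hvq : S.val q = 4 := by
    rcases S.spoke_q hn hh hp hvx hxq hqh with h1 | h1
    · exact h1.2
    · exact absurd ht h1.1
  have htu : t ≠ u := fun h1 => hO.2.2.1 (h1 ▸ hp.1)
  have htu' : t ≠ u' := fun h1 => hO'.2.2.1 (h1 ▸ hp.1)
  have huxq : Part S.N u x q := S.isO_across hO htu hxq hqh
  have huxq' : Part S.N u' x' q := S.isO_across hO' htu' hzq hqh
  have huu' : u ≠ u' := by
    rintro rfl
    rcases S.three t u x q x' htu hp.2.1 hxq.2.1 hp'.2.1 hO.1 huxq.2.1 hO'.1 with h1 | h1 | h1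
    · exact hqx h1.symm
    · exact hqz h1
    · exact hxx h1
  obtain ⟨w, q2, hq2, hqw, hq2w, hwx, hwq, hwq2, hqq2, hcovu, hnxw, hnqq2⟩ :=
    S.HUB4_quad hT.1 huxq
  -- the hub of `u`
  have hvw : S.val w + 2 = n := by
    obtain ⟨g, hg, hvg⟩ := hT.2
    rcases hcovu g hg with h1 | h1 | h1 | h1
    · rw [h1, hvx] at hvg; omega
    · rw [h1, hvq] at hvg; omega
    · rw [← h1]; exact hvg
    · have h2 := S.isO_val hn hB hO hq2
      rw [h1] at hvg; omega
  have hwu : w ∈ S.N u := hqw.2.1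
  obtain ⟨F, r, s, hFu, hFt, hFu', hqF, hrq, hsq, hrs, hru', hrF, hsF, hsu⟩ :=
    S.link4 hvq htu.symm htu' huu' huxq.2.1 hxq.2.1 huxq'.2.1 hqx.symm hO.1 hp.2.1 hqz.symm
      hp'.2.1 hO'.1
  have hPqs : Part S.N u q s := ⟨huxq.2.1, hsu, hsq.symm, F, hFu, hqF, hsF⟩
  have hsw : s = w := by
    rcases hcovu s hsu with h1 | h1 | h1 | h1
    · exfalso
      subst h1
      rcases S.edge s q t u F hsq hp.2.1 hxq.2.1 hO.1 huxq.2.1 hsF hqF with h2 | h2 | h2
      · exact htu h2
      · exact hFu h2.symm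
      · exact hFt h2.symm
    · exact absurd h1 hsq
    · exact h1
    · exact absurd (h1 ▸ hPqs) hnqq2
  subst hsw
  have hFc : (S.N F).card = 4 := by
    obtain ⟨h1, -, h2⟩ := S.big_tile hsF hvw
    rcases h1 with h1 | h1
    · exact h1
    · have := h2 h1 q hqF hsq.symm
      omega
  have hPFqw : Part S.N F q s := ⟨hqF, hsF, hsq.symm, u, hFu.symm, huxq.2.1, hsu⟩
  have hPFqr : Part S.N F q r := ⟨hqF, hrF, hrq.symm, u', hFu'.symm, huxq'.2.1, hru'⟩
  obtain ⟨y1, r', hr', hwy, hry, hy1q, hy1w, hy1r, hwr', hcovF, -, -⟩ := S.HUB4_quad hFc hPFqw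
  have hrr' : r = r' := by
    rcases S.not_three_partners hPFqw hPFqr hr' with h1 | h1 | h1
    · exact absurd h1.symm hrs
    · exact h1
    · exact absurd h1 hwr'
  subst hrr'
  have hvr : S.val r = 3 := by
    have h1 := S.JC_sum4 hcovF hqF hsF hwy.2.1 hrF hsq.symm hy1q.symm hrq.symm hy1w.symm
      hrs.symm hy1r
    have h2 := S.val_ge hrF
    have h3 := S.val_ge hwy.2.1
    omega
  have hrx' : r ≠ x' := by
    rintro rfl
    rcases S.edge r q t u' F hrq hp'.2.1 hxq.2.1 hO'.1 huxq'.2.1 hrF hqF with h2 | h2 | h2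
    · exact htu' h2
    · exact hFu' h2.symm
    · exact hFt h2.symm
  have hPu'qr : Part S.N u' q r := ⟨huxq'.2.1, hru', hrq.symm, F, hFu', hqF, hrF⟩
  have h5 : 5 ≤ (S.N u').card := by
    have h4 := S.card_ge u'
    by_contra hcon
    have hc4 : (S.N u').card = 4 := by omega
    obtain ⟨p, r', hr', hx'p, hr'p, hpq, hpx', hpr', hx'r', hcov', -, -⟩ :=
      S.HUB4_quad hc4 (S.part_symm huxq')
    have hrr' : r = r' := by
      rcases S.not_three_partners (S.part_symm huxq') hPu'qr hr' with h1 | h1 | h1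
      · exact absurd h1.symm hrx'
      · exact h1
      · exact absurd h1 hx'r'
    subst hrr'
    have h1 := S.JC_sum4 hcov' huxq'.2.1 hO'.1 hx'p.2.1 hru' hqz hpq.symm hrq.symm
      hpx'.symm hrx'.symm hpr'
    have h2 := S.isO_val hn hB hO' hx'p
    omega
  refine ⟨h5, ?_, ?_⟩
  · rintro ⟨g, hg, hvg⟩
    have := (S.hub4_tile_e hn hg hvg).1
    omega
  · rintro ⟨g, hg, hvg⟩
    obtain ⟨h1, -, h2⟩ := S.big_tile hg hvg
    have hc5 : (S.N u').card = 5 := by omega
    have hqg : q ≠ g := by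
      rintro rfl
      omega
    have := h2 hc5 q huxq'.2.1 hqg
    omega

end Sys

end Pool.Agent.NNb
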