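import Pool.Agent.NNq.Rcv
import Pool.Agent.NNq.Ja
import Pool.Agent.NNq.Jb
import Pool.Agent.NNq.Jc
import Pool.Agent.NNq.Fb

/-!
Module FINB.  The final charge of the tiles of type 33.

`t33_frame`: `h, x, y, z`.  `T4 i`.  The outer tiles `u` at `x`, `u'` at `z` (`spoke_outer`).  `Bj v` for
`v ∈ N i` implies `v = x` or `v = z` (`val v = 3`).
* `Bj x` and `Bj z` are not both true: `Bj x` gives `IsJ u1 x`, `T4 u1` with the hub `h1`; `u1 ≠ i`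
  (`not_isO_spoke`), so `h1 ∈ N i`, `h1 = h` (`big_unique`), `u1 = u` (`isO_unique`); `t33_other`.
* neither: `¬ Sb i x`, `¬ Sb i z`; `¬ T4 u` and `¬ IsAt u` (`isAt_tc`: `|N i| = 4`), so `Vj u x`:
  `i` sends `s3` at `x` and at `z`; `rc_33`: nothing received.
* `Bj x` (symmetric for `z`): `t33_other`: `Vj u' z` (`IsJ u' z`, not four nodes, `¬ IsAt u'`); `Sb i z`,
  so `i` sends `s2` at `z`; received: at most `s1` at `x`, `0` at the other nodes (`rc_33`, `¬ Bj`).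
-/

namespace Pool.Agent.NNb

namespace Sys

variable {ι ν : Type} {n : ℕ} (S : Sys ι ν 4 n) (P : QPar)

private theorem FINB_bj (hn : 11 ≤ n) {u : ι} {x h : ν} (hh : S.val h + 2 = n)
    (hO : S.IsO u x h) : S.Bj x ↔ S.T4 u := by
  constructor
  · rintro ⟨u1, ⟨h1, hh1, hO1⟩, hT⟩
    rw [(S.isO_unique hn (Or.inr hh) (Or.inr hh1) hO hO1).1]
    exact hT
  · intro hT
    exact ⟨u, ⟨h, hh, hO⟩, hT⟩

private theorem FINB_send {i u : ι} {x : ν} (hui : u ≠ i) (hxu : x ∈ S.N u) (hV : S.Vj u x) :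
    S.ld P x i ≤ S.sn P i x := by
  refine le_trans ?_ (S.sg_le_sn P hxu)
  unfold sg
  rw [if_pos (⟨hV, hui.symm⟩ : S.Vj u x ∧ i ≠ u)]
  split_ifs <;> linarith [P.aa_nonneg, P.s1_nonneg]

private theorem FINB_one (hn : 11 ≤ n) {i u u' : ι} (ht : S.T33 i) {h x y z : ν}
    (hh : S.val h + 2 = n) (hx : Part S.N i h x) (hz : Part S.N i h z) (hxz : x ≠ z)
    (hvy : S.val y = 4) (hall : ∀ v ∈ S.N i, v = h ∨ v = x ∨ v = y ∨ v = z)
    (hO : S.IsO u x h) (hO' : S.IsO u' z h) (hui : u' ≠ i) (hT : S.T4 u) :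
    ∑ v ∈ S.N i, S.qph P i v ≤ P.s1 - P.s2 := by
  obtain ⟨-, h2, h3⟩ := S.t33_other hn ht hh hx hz hxz hO hT hO'
  have hT' : ¬ S.T4 u' := fun h4 => h3 h4.2
  have hBz : ¬ S.Bj z := fun h4 => hT' ((FINB_bj S hn hh hO').1 h4)
  have hBx : S.Bj x := (FINB_bj S hn hh hO).2 hT
  have hB : ∀ v ∈ S.N i, v ≠ x → ¬ S.Bj v := by
    intro v hv hvx hBv
    have h5 : S.val v = 3 := by
      obtain ⟨u1, ⟨h1, hh1, hO1⟩, -⟩ := hBv
      exact hO1.2.1
    rcases hall v hv with rfl | rfl | rfl | rfl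
    · omega
    · exact hvx rfl
    · omega
    · exact hBz hBv
  have hR : ∑ v ∈ S.N i, S.rc P i v ≤ P.s1 := by
    rw [Finset.sum_eq_single x]
    · exact (S.rc_33 P hn ht hx.2.1).1
    · intro v hv hvx
      exact (S.rc_33 P hn ht hv).2 (hB v hv hvx)
    · intro h6
      exact absurd hx.2.1 h6
  have hld : S.ld P z i = P.s2 := by
    unfold ld
    rw [if_pos ht]
    exact if_pos ⟨x, hx.2.1, hxz, hBx⟩
  have hs : P.s2 ≤ S.sn P i z := by
    rw [← hld]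
    exact FINB_send S P hui hO'.1 ⟨⟨h, hh, hO'⟩, hT', h2⟩
  exact S.qph_sum_one P hz.2.1 hR hs

theorem fin_33 (hn : 11 ≤ n) {i : ι} (h : S.T33 i) :
    S.f i + ∑ x ∈ S.N i, S.qph P i x ≤ 1 / ((n : ℝ) - 2) - 1 / 12 - 2 * P.s3 ∨
      S.f i + ∑ x ∈ S.N i, S.qph P i x ≤ 1 / ((n : ℝ) - 2) - 1 / 12 + P.s1 - P.s2 := by
  obtain ⟨g, x, y, z, hg, hx, hz, hxy, hzy, hxz, hyg, hvx, hvz, hvy, hall⟩ := S.t33_frame hn h
  have hf := S.f_t4 hn (⟨h.1, g, hx.1, hg⟩ : S.T4 i)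
  obtain ⟨u, hui, hO⟩ := S.spoke_outer hx hvx
  obtain ⟨u', hui', hO'⟩ := S.spoke_outer hz hvz
  by_cases hT : S.T4 u
  · right
    have h1 := FINB_one S P hn h hg hx hz hxz hvy hall hO hO' hui' hT
    linarith
  by_cases hT' : S.T4 u'
  · right
    have h1 := FINB_one S P hn h hg hz hx hxz.symm hvy
      (fun v hv => by rcases hall v hv with h2 | h2 | h2 | h2 <;> tauto) hO' hO hui hT'
    linarith
  left
  have hBx : ¬ S.Bj x := fun h4 => hT ((FINB_bj S hn hg hO).1 h4)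
  have hBz : ¬ S.Bj z := fun h4 => hT' ((FINB_bj S hn hg hO').1 h4)
  have hB : ∀ v ∈ S.N i, ¬ S.Bj v := by
    intro v hv hBv
    have h5 : S.val v = 3 := by
      obtain ⟨u1, ⟨h1, hh1, hO1⟩, -⟩ := hBv
      exact hO1.2.1
    rcases hall v hv with rfl | rfl | rfl | rfl
    · omega
    · exact hBx hBv
    · omega
    · exact hBz hBv
  have hR : ∑ v ∈ S.N i, S.rc P i v ≤ 0 :=
    le_of_eq (Finset.sum_eq_zero fun v hv => (S.rc_33 P hn h hv).2 (hB v hv))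
  have hld : ∀ v, S.ld P v i = P.s3 := by
    intro v
    unfold ld
    rw [if_pos h, if_neg]
    rintro ⟨w, hw, -, hBw⟩
    exact hB w hw hBw
  have hA : ∀ {w : ι} {v : ν}, w ≠ i → v ∈ S.N i → S.IsO w v g → ¬ S.IsAt w := by
    intro w v hwi hv hOw hAt
    have h1 := S.isAt_tc hn ⟨g, hg, hOw⟩ hAt hwi.symm hv
    have h2 := h1.1.1
    have h3 := h.1
    omega
  have hsx : P.s3 ≤ S.sn P i x := by
    rw [← hld x]
    exact FINB_send S P hui hO.1 ⟨⟨g, hg, hO⟩, hT, hA hui hx.2.1 hO⟩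
  have hsz : P.s3 ≤ S.sn P i z := by
    rw [← hld z]
    exact FINB_send S P hui' hO'.1 ⟨⟨g, hg, hO'⟩, hT', hA hui' hz.2.1 hO'⟩
  have h1 := S.qph_sum_two P hx.2.1 hz.2.1 hxz hR hsx hsz
  linarith

end Sys

end Pool.Agent.NNb
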