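import Pool.Agent.NNq.Qty

/-!
Module JX.  Tiles `t` of type 5 with a node `b` with `IsX t b` (`TC t`).

`h` the hub of `t`, `g` the node of valence `n - 1` with `IsO t b g` (`isX_iff`).  `b ≠ h` (`val b = 3`),
`b` is not a partner of `h` on `t` (`not_isO_spoke`): `t5_frame`: a 5-cycle `h, a, b, c, d`, all other
valences 3.  `isO_frame` at `b`: the other tiles at `b` are `g1 ∋ a` and `g2 ∋ c` (after renaming), both
contain `g` as a partner of `b`; tiles at `g` have four nodes, the others of valence 3 (`hub4_tile_e`).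
* Outer tile at `a`: `g1 ∋ a`, `h ∉ N g1` (`big_unique`); the outer tile `u` with `IsO u a h'`,
  `val h' = n - 2`, `u ≠ t` (then `h' ∈ N t`, `h' = h`) is the tile at `a` without `h`, so `u = g1`
  (`HUB4_third`): `IsAt u`.
* Outer tile `E` at `d` (`spoke_outer`): `IsO E d h`.  `c ∈ N E` (`isO_across`).  `E ≠ g2` (`three`: `b, c, d`
  on `t`).  `g2` is a 4-cycle `g, b, c, w`.  The tile across `c, w` from `g2` is `E` (the tiles at `c` are
  `t, g2, E`, `w ∉ N t` by `three`).  `val w = 3`, `w, g` are partners on `g2`; the other tile `g3` with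
  `w, g` is not `E` (`three`: `c, w, g` on `g2, E`), so `IsO E w g`, `IsX E w`, and `|N E| ≥ 5`
  (`isX_card_e`).
  `|N E| = 5` is impossible: `d, c` and `c, w` are partners on `E`; the other partner `p` of `w` on `E` has
  valence 3 (`p` is on a tile at `g` by `isO_part`, `p ≠ g`, `hub4_tile_e`), the other partner `c'` of `d`
  has valence `≤ 4` (`isO_val`); `E` is a 5-cycle `d, c, w, p, c'` (`cyc5`), so
  `∑ (val - 2) ≤ 1 + 1 + 1 + 1 + 2 < n` (`sum_val`).  So `|N E| ≥ 6`, `¬ T4 E`, `¬ IsAt E`: `Vj E d`.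
* `tc_outer`: `u ≠ t`, `IsJ u x` with the hub `h'`: `h' ∈ N t`, `h' = h`, `x` is a partner of `h` on `t`
  (`isO_part`), so `x = a` or `x = d`.
-/

namespace Pool.Agent.NNb

namespace Sys

variable {ι ν : Type} {n : ℕ} (S : Sys ι ν 4 n)

open Classical in
/-- five nodes of a tile with five nodes -/
private theorem JX_five {i : ι} (hc : (S.N i).card = 5) {d c w p q : ν} (h1 : Part S.N i d c)
    (h2 : Part S.N i c w) (hdw : d ≠ w) (h3 : Part S.N i w p) (hpc : p ≠ c)
    (h4 : Part S.N i d q) (hqc : q ≠ c) :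
    (S.val d - 2) + (S.val c - 2) + (S.val w - 2) + (S.val p - 2) + (S.val q - 2) = n := by
  have hpd : p ≠ d := by
    rintro rfl
    exact S.no_triangle hc.le h1 h2 h3
  have hqw : q ≠ w := by
    rintro rfl
    exact S.no_triangle hc.le h1 h2 (S.part_symm h4)
  have hpq : p ≠ q := by
    rintro rfl
    -- a 4-cycle `d, c, w, p`; the fifth node has no partner
    have hsub : ({d, c, w, p} : Finset ν) ⊆ S.N i := by
      intro v hv
      simp only [Finset.mem_insert, Finset.mem_singleton] at hv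
      rcases hv with rfl | rfl | rfl | rfl
      · exact h1.1
      · exact h2.1
      · exact h3.1
      · exact h3.2.1
    have hc4 : ({d, c, w, p} : Finset ν).card = 4 := by
      rw [Finset.card_insert_of_notMem, Finset.card_insert_of_notMem,
        Finset.card_insert_of_notMem, Finset.card_singleton]
      · simpa using h3.2.2.1
      · simp only [Finset.mem_insert, Finset.mem_singleton, not_or]
        exact ⟨h2.2.2.1, hpc.symm⟩
      · simp only [Finset.mem_insert, Finset.mem_singleton, not_or]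
        exact ⟨h1.2.2.1, hdw, hpd.symm⟩
    obtain ⟨e, he, hen⟩ := Finset.exists_mem_notMem_of_card_lt_card
      (show ({d, c, w, p} : Finset ν).card < (S.N i).card by rw [hc4, hc]; norm_num)
    have hcov : ∀ v ∈ S.N i, v = e ∨ v = d ∨ v = c ∨ v = w ∨ v = p := by
      have h5 : insert e ({d, c, w, p} : Finset ν) = S.N i := by
        apply Finset.eq_of_subset_of_card_le
        · intro v hv
          rcases Finset.mem_insert.1 hv with rfl | hv
          · exact he
          · exact hsub hv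
        · rw [Finset.card_insert_of_notMem hen, hc4, hc]
      intro v hv
      rw [← h5] at hv
      simpa using hv
    simp only [Finset.mem_insert, Finset.mem_singleton, not_or] at hen
    obtain ⟨hed, hec, hew, hep⟩ := hen
    obtain ⟨y, -, -, hy, -, -⟩ := S.part i e he
    have hye := S.part_symm hy
    rcases hcov y hy.2.1 with h | h | h | h | h
    · exact hy.2.2.1 h.symm
    · subst h
      rcases S.not_three_partners h1 h4 hye with h | h | h
      · exact hpc h.symm
      · exact hep h.symm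
      · exact hec h.symm
    · subst h
      rcases S.not_three_partners (S.part_symm h1) h2 hye with h | h | h
      · exact hdw h
      · exact hew h.symm
      · exact hed h.symm
    · subst h
      rcases S.not_three_partners (S.part_symm h2) h3 hye with h | h | h
      · exact hpc h.symm
      · exact hep h.symm
      · exact hec h.symm
    · subst h
      rcases S.not_three_partners (S.part_symm h3) (S.part_symm h4) hye with h | h | h
      · exact hdw h.symm
      · exact hed h.symm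
      · exact hew h.symm
  have n1 : w ∉ ({p, q} : Finset ν) := by
    simp only [Finset.mem_insert, Finset.mem_singleton, not_or]; exact ⟨h3.2.2.1, hqw.symm⟩
  have n2 : c ∉ ({w, p, q} : Finset ν) := by
    simp only [Finset.mem_insert, Finset.mem_singleton, not_or]
    exact ⟨h2.2.2.1, hpc.symm, hqc.symm⟩
  have n3 : d ∉ ({c, w, p, q} : Finset ν) := by
    simp only [Finset.mem_insert, Finset.mem_singleton, not_or]
    exact ⟨h1.2.2.1, hdw, hpd.symm, h4.2.2.1⟩
  have n4 : p ∉ ({q} : Finset ν) := by simpa using hpq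
  have hN : ({d, c, w, p, q} : Finset ν) = S.N i := by
    apply Finset.eq_of_subset_of_card_le
    · intro v hv
      simp only [Finset.mem_insert, Finset.mem_singleton] at hv
      rcases hv with rfl | rfl | rfl | rfl | rfl
      · exact h1.1
      · exact h2.1
      · exact h3.1
      · exact h3.2.1
      · exact h4.2.1
    · rw [Finset.card_insert_of_notMem n3, Finset.card_insert_of_notMem n2,
        Finset.card_insert_of_notMem n1, Finset.card_insert_of_notMem n4,
        Finset.card_singleton, hc]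
  have h5 := S.sum_val i
  rw [← hN, Finset.sum_insert n3, Finset.sum_insert n2, Finset.sum_insert n1,
    Finset.sum_insert n4, Finset.sum_singleton] at h5
  omega

/-- the other partner -/
private theorem JX_other {i : ι} {x y : ν} (h : Part S.N i x y) :
    ∃ z, Part S.N i x z ∧ z ≠ y := by
  obtain ⟨a, b, hab, ha, hb, hall⟩ := S.part i x h.1
  rcases hall y h with rfl | rfl
  · exact ⟨b, hb, hab.symm⟩
  · exact ⟨a, ha, hab⟩

private theorem JX_frame (hn : 11 ≤ n) {t : ι} (hT : S.TC t) :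
    ∃ h g a b c d g1 g2, S.val h + 2 = n ∧ S.val g + 1 = n ∧ Part S.N t h a ∧ Part S.N t a b ∧
      Part S.N t b c ∧ Part S.N t c d ∧ Part S.N t d h ∧ a ≠ d ∧ b ≠ d ∧ c ≠ h ∧
      S.val a = 3 ∧ S.val b = 3 ∧ S.val c = 3 ∧ S.val d = 3 ∧ S.IsO t b g ∧
      g1 ≠ t ∧ g2 ≠ t ∧ Part S.N g1 g b ∧ Part S.N g1 b a ∧ Part S.N g2 g b ∧
      Part S.N g2 b c ∧ c ≠ g := by
  obtain ⟨⟨hc, h, hht, hh⟩, b, hX⟩ := hT
  obtain ⟨g, hg, hO⟩ := S.isX_iff.1 hX
  have hB : S.Big h := Or.inr hh
  have hB' : S.Big g := Or.inl hg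
  have hbh : b ≠ h := by
    rintro rfl
    have := hO.2.1
    omega
  have hnp : ¬ Part S.N t h b := fun hp => S.not_isO_spoke hn hB hB' hp hO
  obtain ⟨a, c, d, pha, pab, pbc, pcd, pdh, hac, had, hbd, hch, va, vb, vc, vd, hcov⟩ :=
    S.t5_frame hn hc hh hht hO.1 hbh hnp
  obtain ⟨t1, t2, q1, q2, ht12, ht1, ht2, hp1, hq1, hqg1, hp2, hq2, hqg2, hu1, hu2, hq12, hall,
    hpart⟩ := S.isO_frame hO
  have hcg : c ≠ g := by
    rintro rfl
    omega
  rcases hpart a (S.part_symm pab) with h1 | h1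
  · rcases hpart c pbc with h2 | h2
    · exact absurd (h1.trans h2.symm) hac
    · subst h1 h2
      exact ⟨h, g, a, b, c, d, t1, t2, hh, hg, pha, pab, pbc, pcd, pdh, had, hbd, hch, va, vb,
        vc, vd, hO, ht1, ht2, hp1, hq1, hp2, hq2, hcg⟩
  · rcases hpart c pbc with h2 | h2
    · subst h1 h2
      exact ⟨h, g, a, b, c, d, t2, t1, hh, hg, pha, pab, pbc, pcd, pdh, had, hbd, hch, va, vb,
        vc, vd, hO, ht2, ht1, hp2, hq2, hp1, hq1, hcg⟩
    · exact absurd (h1.trans h2.symm) hac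

/-- the outer tile at `d` has at least six nodes -/
private theorem JX_E (hn : 11 ≤ n) {t E g2 : ι} {h g b c d : ν} (hh : S.val h + 2 = n)
    (hg : S.val g + 1 = n) (pbc : Part S.N t b c) (pcd : Part S.N t c d) (pdh : Part S.N t d h)
    (hbd : b ≠ d) (hch : c ≠ h) (vc : S.val c = 3) (vd : S.val d = 3)
    (hg2 : g2 ≠ t) (pgb : Part S.N g2 g b) (pbc2 : Part S.N g2 b c) (hcg : c ≠ g)
    (hO : S.IsO E d h) : 6 ≤ (S.N E).card := by
  have hB : S.Big h := Or.inr hh
  have hB' : S.Big g := Or.inl hg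
  have htE : t ≠ E := fun h1 => hO.2.2.1 (h1 ▸ pdh.2.1)
  have hEdc : Part S.N E d c := S.isO_across hO htE (S.part_symm pcd) hch
  have hEg2 : E ≠ g2 := by
    rintro rfl
    rcases S.three t E b c d htE pbc.1 pbc.2.1 pcd.2.1 pbc2.1 pbc2.2.1 hEdc.1 with h1 | h1 | h1
    · exact pbc.2.2.1 h1
    · exact pcd.2.2.1 h1
    · exact hbd h1
  obtain ⟨hc2, hv2⟩ := S.hub4_tile_e hn pgb.1 hg
  obtain ⟨w, z, hz, hcw, hzw, hwb, hwc, hwz, hcz, -, -, -⟩ := S.HUB4_quad hc2 pbc2
  have hgz : g = z := by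
    rcases S.not_three_partners pbc2 (S.part_symm pgb) hz with h1 | h1 | h1
    · exact absurd h1 hcg
    · exact h1
    · exact absurd h1 hcz
  subst hgz
  have vw : S.val w = 3 := hv2 w hcw.2.1 hwz
  have hwt : w ∉ S.N t := by
    intro hwt
    rcases S.three t g2 b c w hg2.symm pbc.1 pbc.2.1 hwt pbc2.1 pbc2.2.1 hcw.2.1 with
      h1 | h1 | h1
    · exact pbc.2.2.1 h1
    · exact hwc h1.symm
    · exact hwb h1.symm
  -- `w` is on `E`
  have hwE : w ∈ S.N E := by
    obtain ⟨j, hj, hpj, -⟩ := S.part_other hcw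
    rcases S.HUB4_four vc pbc.2.1 pbc2.2.1 hEdc.2.1 hpj.1 hg2.symm htE hEg2.symm with
      h1 | h1 | h1
    · exact absurd (h1 ▸ hpj.2.1) hwt
    · exact absurd h1 hj
    · exact h1 ▸ hpj.2.1
  have hEcw : Part S.N E c w := ⟨hEdc.2.1, hwE, hwc.symm, g2, hEg2.symm, pbc2.2.1, hcw.2.1⟩
  have hgE : g ∉ S.N E := by
    intro hgE
    rcases S.three E g2 c w g hEg2 hEdc.2.1 hwE hgE pbc2.2.1 hcw.2.1 pgb.1 with h1 | h1 | h1
    · exact hwc h1.symm
    · exact hwz h1
    · exact hcg h1
  have hOw : S.IsO E w g := by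
    obtain ⟨g3, hg3, hp3, -⟩ := S.part_other hzw
    have hg3E : g3 ≠ E := by
      rintro rfl
      exact hgE hp3.1
    refine ⟨hwE, vw, hgE, fun i hi hiE => ?_⟩
    rcases S.HUB4_four vw hcw.2.1 hp3.2.1 hwE ((S.mem_tl i w).1 hi) hg3.symm hEg2.symm hg3E with
      h1 | h1 | h1
    · rw [h1]; exact pgb.1
    · rw [h1]; exact hp3.1
    · exact absurd h1 hiE
  have h5 : 5 ≤ (S.N E).card := S.isX_card_e hn (S.isX_iff.2 ⟨g, hg, hOw⟩)
  by_contra hcon
  have hc5 : (S.N E).card = 5 := by omega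
  obtain ⟨p, hwp, hpc⟩ := S.JX_other (S.part_symm hEcw)
  obtain ⟨q, hdq, hqc⟩ := S.JX_other hEdc
  have hdw : d ≠ w := by
    rintro rfl
    exact hwt pdh.1
  have h6 := S.JX_five hc5 hEdc hEcw hdw hwp hpc hdq hqc
  have vp : S.val p = 3 := by
    obtain ⟨j, hj, hpj, -⟩ := S.part_other hwp
    have h7 := S.isO_part hOw hpj.1 hj
    refine (S.hub4_tile_e hn h7.1 hg).2 p hpj.2.1 ?_
    rintro rfl
    exact hgE hwp.2.1
  have vq := S.isO_val hn hB hO hdq
  omega

theorem tc_send (hn : 11 ≤ n) {t : ι} (hT : S.TC t) :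
    ∃ d E, d ∈ S.N t ∧ E ≠ t ∧ S.Vj E d ∧ 6 ≤ (S.N E).card := by
  obtain ⟨h, g, a, b, c, d, g1, g2, hh, hg, pha, pab, pbc, pcd, pdh, had, hbd, hch, va, vb, vc,
    vd, hOb, hg1, hg2, p1, p1', p2, p2', hcg⟩ := S.JX_frame hn hT
  obtain ⟨E, hE, hO⟩ := S.spoke_outer (S.part_symm pdh) vd
  have h6 := S.JX_E hn hh hg pbc pcd pdh hbd hch vc vd hg2 p2 p2' hcg hO
  refine ⟨d, E, pdh.1, hE, ⟨⟨h, hh, hO⟩, ?_, ?_⟩, h6⟩
  · intro h4
    have := h4.1
    omega
  · rintro ⟨g', hg', hvg'⟩
    have := (S.hub4_tile_e hn hg' hvg').1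
    omega

theorem tc_outer (hn : 11 ≤ n) {t u : ι} {x : ν} (hT : S.TC t) (hx : x ∈ S.N t) (hu : u ≠ t)
    (hJ : S.IsJ u x) : S.IsAt u ∨ 6 ≤ (S.N u).card := by
  obtain ⟨h, g, a, b, c, d, g1, g2, hh, hg, pha, pab, pbc, pcd, pdh, had, hbd, hch, va, vb, vc,
    vd, hOb, hg1, hg2, p1, p1', p2, p2', hcg⟩ := S.JX_frame hn hT
  obtain ⟨h', hh', hO⟩ := hJ
  have hB : S.Big h := Or.inr hh
  have hp' := S.isO_part hO hx hu.symm
  have heq : h' = h := S.big_unique hn (Or.inr hh') hB hp'.1 pha.1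
  subst heq
  rcases S.not_three_partners pha (S.part_symm pdh) hp' with h1 | h1 | h1
  · exact absurd h1 had
  · subst h1
    exact Or.inr (S.JX_E hn hh hg pbc pcd pdh hbd hch vc vd hg2 p2 p2' hcg hO)
  · subst h1
    left
    have hg1h : h' ∉ S.N g1 := by
      intro h2
      have h3 := S.big_unique hn hB (Or.inl hg) h2 p1.1
      subst h3
      omega
    have hug : u = g1 := S.HUB4_third va pha hO.1 hO.2.2.1 p1'.2.1 hg1h
    subst hug
    exact ⟨g, p1.1, hg⟩

end Sys

end Pool.Agent.NNb
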