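import Pool.Agent.NNq.Jb

/-!
Module JY.  A tile `t` of type 5 (hub `h`) which is the outer tile at `x` for another hub `h'`, such that
the two other tiles at `x` have four nodes.

`x ≠ h` (`val x = 3`), `x` is not a partner of `h` (`not_isO_spoke`): `t5_frame` with `b = x`: a 5-cycle
`h, a, x, c, d`.  Let `t1 ≠ t` contain `a, x` (`part_other`); `h' ∈ N t1` (`hJ`), `h ∉ N t1`
(`big_unique`, `h' ∉ N t`).  `a` is a 3-valent partner of `h` on `t`; its outer tile (`spoke_outer`) is `t1`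
(`HUB4_third`): `IsO t1 a h`, `IsJ t1 a`, `T4 t1`, so `Bj a`.  `bj_frame` for `t1, a`: the two other tiles
at `a` are `t` (not of type 33: five nodes) and `j`, so `T33 j`.  `¬ IsJ t a` (`not_isO_spoke`).
Take `y = a`.
-/

namespace Pool.Agent.NNb

namespace Sys

variable {ι ν : Type} {n : ℕ} (S : Sys ι ν 4 n)

theorem t5_both (hn : 11 ≤ n) {t : ι} {x : ν} (hT : S.T5 t) (hJ : S.IsJ t x)
    (h4 : ∀ i, i ≠ t → x ∈ S.N i → S.T4 i) :
    ∃ y j, y ∈ S.N t ∧ y ∈ S.N j ∧ j ≠ t ∧ S.Bj y ∧ S.T33 j ∧ ¬ S.IsJ t y := by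
  obtain ⟨hc5, h, hh, hhv⟩ := hT
  obtain ⟨h', hh', hO⟩ := hJ
  have hx3 := hO.2.1
  have hxh : x ≠ h := by
    rintro rfl
    omega
  have hnp : ¬ Part S.N t h x := fun hp =>
    S.not_isO_spoke hn (Or.inr hhv) (Or.inr hh') hp hO
  obtain ⟨a, c, d, pha, pax, pxc, pcd, pdh, hac, had, hxd, hch, va, vx, vc, vd, hcov⟩ :=
    S.t5_frame hn hc5 hhv hh hO.1 hxh hnp
  obtain ⟨t1, ht1, hp1, -⟩ := S.part_other pax
  have hT1 : S.T4 t1 := h4 t1 ht1 hp1.2.1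
  have hh'1 : h' ∈ S.N t1 := hO.2.2.2 t1 ((S.mem_tl t1 x).2 hp1.2.1) ht1
  have hhh : h ≠ h' := fun h1 => hO.2.2.1 (h1 ▸ hh)
  have hnh : h ∉ S.N t1 := fun h1 =>
    hhh (S.big_unique hn (Or.inr hhv) (Or.inr hh') h1 hh'1)
  obtain ⟨u, hut, hOu⟩ := S.spoke_outer pha va
  have hut1 : u = t1 := by
    by_contra hne
    exact hnh (hOu.2.2.2 t1 ((S.mem_tl t1 a).2 hp1.1) (Ne.symm hne))
  subst hut1
  have hJ1 : S.IsJ u a := ⟨h, hhv, hOu⟩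
  obtain ⟨-, s1, s2, h12, h1u, h2u, m1, m2, h33, -, hall⟩ := S.bj_frame hn hJ1 hT1
  refine ⟨a, s1, pha.2.1, m1, ?_, ⟨u, hJ1, hT1⟩, h33, ?_⟩
  · rintro rfl
    have := h33.1
    omega
  · rintro ⟨h2, hh2, hO2⟩
    exact S.not_isO_spoke hn (Or.inr hhv) (Or.inr hh2) pha hO2

end Sys

end Pool.Agent.NNb
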