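import Pool.Agent.NNq.Rcv
import Pool.Agent.NNq.Jx
import Pool.Agent.NNq.Jy
import Pool.Agent.NNq.Fb

/-!
Module FINC.  The final charge of the tiles of type 5.

The hub has valence `≥ 5`, so `|OutS i| ≤ 1` (`out_card`).
* `fin_tc`: `IsX i b`; `b ∈ OutS i`, so `OutS i = {b}`, `sum_rc_le` with `M = 2 aa` (`rc_isX`);
  `tc_send`: `i` sends `ta` at `d` to `E` (`Vj E d`; `i ≠ E`; `i` is not of type 33 and not `T4` by the
  number of nodes, so `ld d i = ta`; `d ∈ N E` from `Vj`).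
* `fin_t5`: `¬ TC i`, so a node `x ∈ OutS i` has `IsJ i x` (otherwise `IsX i x`).  The other tiles `j` at
  `x`: not of type 33 (`not33_of_three`: the partners of `x` on `i` have valence 3 as `x` is not a
  partner of the hub by `not_isO_spoke`, `big_tile`); not `TC` (`tc_outer`: `|N i| = 5`, `¬ IsAt i` by
  `big_unique`), so `ld x j ≤ s1`, and `ld x j = 0` unless `T4 j`.  If not both are `T4`: received at
  most `s1` (`rc_isJ_one`).  If both are `T4`: received at most `2 s1`, and `t5_both`: `i` sends `s1`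
  (third term of `sg`) at `y`.  If `OutS i = ∅`: received `0`.
-/

namespace Pool.Agent.NNb

namespace Sys

variable {ι ν : Type} {n : ℕ} (S : Sys ι ν 4 n) (P : QPar)

private theorem finc_n33 {i : ι} (h : (S.N i).card = 5) : ¬ S.T33 i := fun h' => by
  have := h'.1
  omega

private theorem finc_n4 {i : ι} (h : (S.N i).card = 5) : ¬ S.T4 i := fun h' => by
  have := h'.1
  omega

private theorem finc_out (hn : 11 ≤ n) {i : ι} (h : S.T5 i) : (S.OutS i).card ≤ 1 := by
  obtain ⟨h5, w, hw, hv⟩ := h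
  have := S.out_card hn hw (by omega)
  omega

private theorem finc_rc (hn : 11 ≤ n) {i : ι} (h : S.T5 i) {M : ℝ} (h0 : 0 ≤ M)
    (hM : ∀ x ∈ S.OutS i, S.rc P i x ≤ M) : ∑ x ∈ S.N i, S.rc P i x ≤ M := by
  have h1 := S.sum_rc_le P hn (finc_n33 S h.1) hM
  have h2 : ((S.OutS i).card : ℝ) ≤ 1 := by exact_mod_cast finc_out S hn h
  refine h1.trans ?_
  have h3 := mul_le_mul_of_nonneg_right h2 h0
  rwa [one_mul] at h3

private theorem finc_ite_nonneg (p : Prop) [Decidable p] {a : ℝ} (ha : 0 ≤ a) :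
    0 ≤ if p then a else 0 := by
  split_ifs
  · exact ha
  · exact le_rfl

theorem fin_tc (hn : 11 ≤ n) {i : ι} (h : S.TC i) :
    S.f i + ∑ x ∈ S.N i, S.qph P i x ≤ 1 / ((n : ℝ) - 2) - 1 / 6 + 2 * P.aa - P.ta := by
  classical
  have h5 := h.1
  obtain ⟨b, hb⟩ := h.2
  have hbO : b ∈ S.OutS i := by
    obtain ⟨g, hg, hO⟩ := S.isX_iff.1 hb
    exact S.mem_OutS.2 ⟨hO.1, g, Or.inl hg, hO⟩
  have hrc : ∑ x ∈ S.N i, S.rc P i x ≤ 2 * P.aa := by
    refine finc_rc S P hn h5 (by have := P.aa_nonneg; linarith) fun x hx => ?_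
    have hxb : x = b := Finset.card_le_one.1 (finc_out S hn h5) x hx b hbO
    rw [hxb]
    exact S.rc_isX P hn (finc_n33 S h5.1) hb
  obtain ⟨d, E, hd, hE, hV, h6⟩ := S.tc_send hn h
  have hdE : d ∈ S.N E := by
    obtain ⟨h', _, hO⟩ := hV.1
    exact hO.1
  have hsn : P.ta ≤ S.sn P i d := by
    refine le_trans ?_ (S.sg_le_sn P (i := E) (j := i) hdE)
    have hld : S.ld P d i = P.ta := by
      unfold ld
      rw [if_neg (finc_n33 S h5.1), if_neg (finc_n4 S h5.1), if_pos h]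
    unfold sg
    rw [if_pos (show S.Vj E d ∧ i ≠ E from ⟨hV, hE.symm⟩), hld]
    have h1 := finc_ite_nonneg (S.IsX E d ∧ i ≠ E) P.aa_nonneg
    have h2 := finc_ite_nonneg (S.Bj d ∧ S.T33 E ∧ i ≠ E ∧ ¬ S.T33 i ∧ ¬ S.IsJ i d) P.s1_nonneg
    linarith
  have h7 := S.qph_sum_one P hd hrc hsn
  have h8 := S.f_t5 hn h5
  linarith

theorem fin_t5 (hn : 11 ≤ n) {i : ι} (h : S.T5 i) (hC : ¬ S.TC i) :
    S.f i + ∑ x ∈ S.N i, S.qph P i x ≤ 1 / ((n : ℝ) - 2) - 1 / 6 + P.s1 := by
  classical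
  have h8 := S.f_t5 hn h
  suffices hq : ∑ x ∈ S.N i, S.qph P i x ≤ P.s1 by linarith
  have h33 := finc_n33 S h.1
  by_cases hne : (S.OutS i).Nonempty
  · obtain ⟨x, hx⟩ := hne
    have huniq : ∀ y ∈ S.OutS i, y = x := fun y hy =>
      Finset.card_le_one.1 (finc_out S hn h) y hy x hx
    obtain ⟨hxi, h', hB', hO⟩ := S.mem_OutS.1 hx
    have hJ : S.IsJ i x := by
      rcases hB' with h1 | h1
      · exact absurd ⟨h, x, S.isX_iff.2 ⟨h', h1, hO⟩⟩ hC
      · exact ⟨h', h1, hO⟩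
    obtain ⟨w, hw, hv⟩ := h.2
    have h3 : ∀ y, Part S.N i x y → S.val y = 3 := by
      intro y hy
      refine (S.big_tile hw hv).2.2 h.1 y hy.2.1 ?_
      rintro rfl
      exact S.not_isO_spoke hn (Or.inr hv) hB' (S.part_symm hy) hO
    have hld : ∀ j, j ≠ i → x ∈ S.N j → S.ld P x j = if S.T4 j then P.s1 else 0 := by
      intro j hj hxj
      have h1 : ¬ S.T33 j := S.not33_of_three hn hJ hj hxj h3
      have h2 : ¬ S.TC j := by
        intro hT
        rcases S.tc_outer hn hT hxj hj.symm hJ with h4 | h4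
        · obtain ⟨g, hg, hgv⟩ := h4
          have h5 := S.big_unique hn (Or.inl hgv) (Or.inr hv) hg hw
          subst h5
          omega
        · have := h.1
          omega
      unfold ld
      rw [if_neg h1, if_neg h2]
    have hle : ∀ j, j ≠ i → x ∈ S.N j → S.ld P x j ≤ P.s1 := by
      intro j hj hxj
      rw [hld j hj hxj]
      split_ifs
      · exact le_rfl
      · exact P.s1_nonneg
    by_cases hall : ∀ j, j ≠ i → x ∈ S.N j → S.T4 j
    · have hrc : ∑ x ∈ S.N i, S.rc P i x ≤ 2 * P.s1 := by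
        refine finc_rc S P hn h (by have := P.s1_nonneg; linarith) fun y hy => ?_
        rw [huniq y hy]
        exact S.rc_isJ P hn h33 hJ hle
      obtain ⟨y, j, hy, hyj, hj, hBy, hTj, hnJ⟩ := S.t5_both hn h hJ hall
      have hsn : P.s1 ≤ S.sn P i y := by
        refine le_trans ?_ (S.sg_le_sn P (i := j) (j := i) hyj)
        unfold sg
        rw [if_pos (show S.Bj y ∧ S.T33 j ∧ i ≠ j ∧ ¬ S.T33 i ∧ ¬ S.IsJ i y from
          ⟨hBy, hTj, hj.symm, h33, hnJ⟩)]
        have h1 := finc_ite_nonneg (S.IsX j y ∧ i ≠ j) P.aa_nonneg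
        have h2 := finc_ite_nonneg (S.Vj j y ∧ i ≠ j) (S.ld_nonneg P y i)
        linarith
      have h7 := S.qph_sum_one P hy hrc hsn
      linarith
    · push Not at hall
      obtain ⟨i0, hi0, hxi0, h4⟩ := hall
      have hrc : ∑ x ∈ S.N i, S.rc P i x ≤ P.s1 := by
        refine finc_rc S P hn h P.s1_nonneg fun y hy => ?_
        rw [huniq y hy]
        refine S.rc_isJ_one P hn h33 hJ hle hi0 hxi0 ?_
        rw [hld i0 hi0 hxi0, if_neg h4]
      exact S.qph_sum_zero P hrc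
  · have hrc : ∑ x ∈ S.N i, S.rc P i x ≤ 0 := by
      refine finc_rc S P hn h le_rfl fun x hx => ?_
      exact absurd ⟨x, hx⟩ hne
    have h7 := S.qph_sum_zero P hrc
    have := P.s1_nonneg
    linarith

end Sys

end Pool.Agent.NNb
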