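import Pool.Agent.NNq.Jc
import Pool.Agent.NNb.K4

/-!
Module JD.  `j4_frame`: the outer tile `u` at the spoke `x` of the hub `h` has four nodes and no node of
valence `≥ n - 2`.

`isO_frame`: `t1, t2, q1, q2`; `u` is a 4-cycle `x, q1, w, q2`; `val q1, val q2 ∈ {3, 4}` (`isO_val`,
`val_ge`); `sum_val`: `val w = n + 5 - val q1 - val q2`.  Sum 6: `val w = n - 1`, `IsAt u`; sum 7:
`val w = n - 2`, `T4 u`; so both are 4 and `val w = n - 3`: `f u = 1 - 4/2 + 1/3 + 1/4 + 1/4 + 1/(n-3)`.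
By `spoke_q` the tiles `t1, t2` are of type 33.  `¬ Sb t x` for `t = t1, t2`: let `x' ∈ N t`, `x' ≠ x`,
`IsJ u'' x'`, `T4 u''` with the hub `h''`; `val x' = 3`, so `x'` is the other partner of `h` on `t` (the
nodes of `t` are `h, x, q, x'` with `val q = 4`, `spoke_q` and `HUB4_quad`); `u'' ≠ t`
(`not_isO_spoke`), so `h'' ∈ N t`, `h'' = h` (`big_unique`); `t33_other` (with `x', x` for `x, x'`) gives
`|N u| ≥ 5`, contradiction.
-/

namespace Pool.Agent.NNb

namespace Sys

variable {ι ν : Type} {n : ℕ} (S : Sys ι ν 4 n)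

private theorem JD_set4 {i : ι} {a b c d : ν}
    (hcov : ∀ v, v ∈ S.N i → v = a ∨ v = b ∨ v = c ∨ v = d) (ha : a ∈ S.N i) (hb : b ∈ S.N i)
    (hc : c ∈ S.N i) (hd : d ∈ S.N i) (hab : a ≠ b) (hac : a ≠ c) (had : a ≠ d) (hbc : b ≠ c)
    (hbd : b ≠ d) (hcd : c ≠ d) :
    ((S.val a - 2) + (S.val b - 2) + (S.val c - 2) + (S.val d - 2) = n) ∧
      S.f i = 1 - ((1 / 2 - 1 / (S.val a : ℝ)) + ((1 / 2 - 1 / (S.val b : ℝ)) +
        ((1 / 2 - 1 / (S.val c : ℝ)) + (1 / 2 - 1 / (S.val d : ℝ))))) := by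
  classical
  have hN : S.N i = {a, b, c, d} := by
    ext v
    simp only [Finset.mem_insert, Finset.mem_singleton]
    constructor
    · exact hcov v
    · rintro (rfl | rfl | rfl | rfl) <;> assumption
  have n1 : a ∉ ({b, c, d} : Finset ν) := by
    simp only [Finset.mem_insert, Finset.mem_singleton, not_or]; exact ⟨hab, hac, had⟩
  have n2 : b ∉ ({c, d} : Finset ν) := by
    simp only [Finset.mem_insert, Finset.mem_singleton, not_or]; exact ⟨hbc, hbd⟩
  have n3 : c ∉ ({d} : Finset ν) := by simpa using hcd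
  constructor
  · have h1 := S.sum_val i
    rw [hN, Finset.sum_insert n1, Finset.sum_insert n2, Finset.sum_insert n3,
      Finset.sum_singleton] at h1
    omega
  · rw [f, hN, Finset.sum_insert n1, Finset.sum_insert n2, Finset.sum_insert n3,
      Finset.sum_singleton]

theorem j4_frame (hn : 11 ≤ n) {u : ι} {x : ν} (hJ : S.IsJ u x) (hc : (S.N u).card = 4)
    (h4 : ¬ S.T4 u) (hA : ¬ S.IsAt u) :
    S.f u = 1 / ((n : ℝ) - 3) - 1 / 6 ∧ (∀ y ∈ S.N u, S.val y = 3 → y = x) ∧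
      ∀ t, t ≠ u → x ∈ S.N t → S.T33 t ∧ ¬ S.Sb t x := by
  obtain ⟨h, hh, hO⟩ := hJ
  have hB : S.Big h := Or.inr hh
  obtain ⟨t1, t2, q1, q2, ht12, ht1, ht2, hp1, hq1, hqh1, hp2, hq2, hqh2, hu1, hu2, hq12, hall,
    hpart⟩ := S.isO_frame hO
  obtain ⟨w, z, hz, hq1w, hzw, hwx, hwq1, hwz, hq1z, hcov, -, -⟩ := S.HUB4_quad hc hu1
  have hzq : z = q2 := by
    rcases hpart z hz with h1 | h1
    · exact absurd h1.symm hq1z
    · exact h1
  subst hzq
  have hvx : S.val x = 3 := hO.2.1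
  obtain ⟨hsum, hf⟩ := S.JD_set4 hcov hO.1 hu1.2.1 hq1w.2.1 hu2.2.1 hu1.2.2.1 hwx.symm
    hu2.2.2.1 hwq1.symm hq12 hwz
  have v1 := S.isO_val hn hB hO hu1
  have v2 := S.isO_val hn hB hO hu2
  have w1 := S.val_ge hu1.2.1
  have w2 := S.val_ge hu2.2.1
  have w3 := S.val_ge hq1w.2.1
  have hnA : S.val w + 1 ≠ n := fun h1 => hA ⟨w, hq1w.2.1, h1⟩
  have hnH : S.val w + 2 ≠ n := fun h1 => h4 ⟨hc, w, hq1w.2.1, h1⟩
  have e1 : S.val q1 = 4 := by omega
  have e2 : S.val z = 4 := by omega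
  have e3 : S.val w + 3 = n := by omega
  have e3' : (S.val w : ℝ) = (n : ℝ) - 3 := by
    have : ((S.val w + 3 : ℕ) : ℝ) = n := by rw [e3]
    push_cast at this
    linarith
  refine ⟨?_, ?_, ?_⟩
  · rw [hf, hvx, e1, e2, e3']
    push_cast
    ring
  · intro y hy hvy
    rcases hcov y hy with h1 | h1 | h1 | h1
    · exact h1
    · rw [h1] at hvy; omega
    · rw [h1] at hvy; omega
    · rw [h1] at hvy; omega
  · -- the two tiles at `x`
    have key : ∀ t q, t ≠ u → Part S.N t h x → Part S.N t x q → q ≠ h → S.val q = 4 →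
        S.T33 t ∧ ¬ S.Sb t x := by
      intro t q htu hpt hqt hqh hvq
      have hT : S.T33 t := by
        rcases S.spoke_q hn hh hpt hvx hqt hqh with h1 | h1
        · exact h1.1
        · have := h1.2
          omega
      refine ⟨hT, ?_⟩
      rintro ⟨x', hx't, hne, u'', ⟨h'', hh'', hO''⟩, hT''⟩
      have hvx' : S.val x' = 3 := hO''.2.1
      obtain ⟨y, z', hz', hxy, hz'y, hyh, hyx, hyz', hxz', hcovt, -, -⟩ := S.HUB4_quad hT.1 hpt
      have hvy : S.val y = 4 := by
        rcases S.spoke_q hn hh hpt hvx hxy hyh with h1 | h1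
        · exact h1.2
        · exact absurd hT h1.1
      have hx'z : x' = z' := by
        rcases hcovt x' hx't with h1 | h1 | h1 | h1
        · rw [h1] at hvx'; omega
        · exact absurd h1 hne
        · rw [h1] at hvx'; omega
        · exact h1
      subst hx'z
      have htu'' : t ≠ u'' := by
        rintro rfl
        exact S.not_isO_spoke hn hB (Or.inr hh'') hz' hO''
      have hpp := S.isO_part hO'' hx't htu''
      have hhh : h'' = h := S.big_unique hn (Or.inr hh'') hB hpp.1 hpt.1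
      subst hhh
      have := (S.t33_other hn hT hh hz' hpt hne hO'' hT'' hO).1
      omega
    intro t htu hxt
    rcases hall t hxt with h1 | h1 | h1
    · subst h1
      exact key t q1 htu hp1 hq1 hqh1 e1
    · subst h1
      exact key t z htu hp2 hq2 hqh2 e2
    · exact absurd h1 htu

end Sys

end Pool.Agent.NNb
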