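import Pool.Agent.NNq.Rcv
import Pool.Agent.NNq.Jd
import Pool.Agent.NNq.Jx
import Pool.Agent.NNq.Fb

/-!
Module FINP.  The received charge of the tiles without nodes of valence `n - 1`, `n - 2`.

* `rc_p4`: four nodes.  If `x ∈ OutS i`: not `IsX i x` (`isX_card_e`), so `IsJ i x`; `¬ T4 i`;
  `j4_frame`: `x` is the only node of `OutS i` (valence 3), the hub tiles are of type 33 and `¬ Sb`, so
  `ld = s3`: received at most `2 s3` (`rc_isJ`).  Otherwise received `0`.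
* `rc_p`: general bound, `ld ≤ M` as each of `s1, s2, s3, ta` is.
* `rc_p3`: if the partners of the nodes of `OutS i` have valence 3 the hub tiles are not of type 33
  (`not33_of_three`).
-/

namespace Pool.Agent.NNb

namespace Sys

variable {ι ν : Type} {n : ℕ} (S : Sys ι ν 4 n) (P : QPar)

theorem rc_p4 (hn : 11 ≤ n) {i : ι} (h1 : ¬ S.IsAt i) (h2 : ¬ S.IsH i)
    (hc : (S.N i).card = 4) :
    ∑ x ∈ S.N i, S.rc P i x ≤ 0 ∨
      (S.f i = 1 / ((n : ℝ) - 3) - 1 / 6 ∧ ∑ x ∈ S.N i, S.rc P i x ≤ 2 * P.s3) := by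
  classical
  have h4 : ¬ S.T4 i := fun h => h2 h.2
  have h33 : ¬ S.T33 i := by
    rintro ⟨-, g, hg, hgv, -⟩
    exact h2 ⟨g, hg, hgv⟩
  by_cases hE : S.OutS i = ∅
  · left
    refine (Finset.sum_eq_zero (fun x hx => ?_)).le
    exact S.rc_zero P h33 hx (by rw [hE]; exact Finset.notMem_empty x)
  · right
    obtain ⟨x, hx⟩ := Finset.nonempty_iff_ne_empty.2 hE
    obtain ⟨hxi, g, hg, hO⟩ := S.mem_OutS.1 hx
    have hJ : S.IsJ i x := by
      rcases hg with hg | hg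
      · have := S.isX_card_e hn (S.isX_iff.2 ⟨g, hg, hO⟩)
        omega
      · exact ⟨g, hg, hO⟩
    obtain ⟨hf, h3, h5⟩ := S.j4_frame hn hJ hc h4 h1
    refine ⟨hf, ?_⟩
    have hone : S.OutS i = {x} := by
      ext y
      rw [Finset.mem_singleton]
      constructor
      · intro hy
        obtain ⟨hyi, g', hg', hO'⟩ := S.mem_OutS.1 hy
        exact h3 y hyi hO'.2.1
      · rintro rfl
        exact hx
    have h6 := S.sum_rc_le P hn h33 (M := 2 * P.s3) (fun y hy => by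
      rw [hone, Finset.mem_singleton] at hy
      subst hy
      refine S.rc_isJ P hn h33 hJ (fun t ht hyt => ?_)
      obtain ⟨h7, h8⟩ := h5 t ht hyt
      unfold ld
      rw [if_pos h7, if_neg h8])
    rw [hone, Finset.card_singleton] at h6
    push_cast at h6
    linarith

theorem rc_p (hn : 11 ≤ n) {i : ι} (h33 : ¬ S.T33 i) {M : ℝ} (ha : P.aa ≤ M) (h1 : P.s1 ≤ M)
    (h2 : P.s2 ≤ M) (h3 : P.s3 ≤ M) (ht : P.ta ≤ M) :
    ∑ x ∈ S.N i, S.rc P i x ≤ (S.OutS i).card * (2 * M) := by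
  have hM0 : 0 ≤ M := P.aa_nonneg.trans ha
  refine S.sum_rc_le P hn h33 (fun x hx => ?_)
  obtain ⟨hxi, g, hg, hO⟩ := S.mem_OutS.1 hx
  rcases hg with hg | hg
  · have := S.rc_isX P hn h33 (S.isX_iff.2 ⟨g, hg, hO⟩)
    linarith
  · refine S.rc_isJ P hn h33 ⟨g, hg, hO⟩ (fun t _ _ => ?_)
    unfold ld
    split_ifs <;> assumption

theorem rc_p3 (hn : 11 ≤ n) {i : ι} (h33 : ¬ S.T33 i) {w : ν}
    (hw : ∀ x ∈ S.N i, x ≠ w → S.val x = 3) (hw5 : 5 ≤ S.val w) {M : ℝ} (ha : P.aa ≤ M)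
    (h1 : P.s1 ≤ M) (ht : P.ta ≤ M) :
    ∑ x ∈ S.N i, S.rc P i x ≤ (S.OutS i).card * (2 * M) := by
  have hM0 : 0 ≤ M := P.aa_nonneg.trans ha
  refine S.sum_rc_le P hn h33 (fun x hx => ?_)
  obtain ⟨hxi, g, hg, hO⟩ := S.mem_OutS.1 hx
  rcases hg with hg | hg
  · have := S.rc_isX P hn h33 (S.isX_iff.2 ⟨g, hg, hO⟩)
    linarith
  · refine S.rc_isJ P hn h33 ⟨g, hg, hO⟩ (fun t ht hxt => ?_)
    have hn33 : ¬ S.T33 t := by
      refine S.not33_of_three hn ⟨g, hg, hO⟩ ht hxt (fun y hy => hw y hy.2.1 ?_)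
      rintro rfl
      have := S.isO_val hn (Or.inr hg) hO hy
      omega
    unfold ld
    rw [if_neg hn33]
    split_ifs <;> assumption

/-- five nodes: no transfer from a tile `TC` (not needed: `rc_p` is enough) -/
theorem card_of_big (hn : 11 ≤ n) {i : ι} (h : S.IsAt i ∨ S.IsH i) : (S.N i).card ≤ 5 := by
  rcases h with ⟨g, hg, hgv⟩ | ⟨g, hg, hgv⟩
  · exact S.big_card hn (Or.inl hgv) hg
  · exact S.big_card hn (Or.inr hgv) hg

end Sys

end Pool.Agent.NNb
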