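import Pool.Agent.NNq.FinA
import Pool.Agent.NNq.FinB
import Pool.Agent.NNq.FinC
import Pool.Agent.NNq.FinP

/-!
Module MAIN.  `no4e`: no tilings by convex quadrangles with exactly 11 or 13 neighbours.
-/

namespace Pool.Agent.NNb

namespace Sys

variable {ι ν : Type}

/-- the amounts for `n = 11` -/
noncomputable def par11 : QPar where
  s1 := 1 / 36 + 1 / 5000
  s2 := 1 / 18 + 3 / 5000
  s3 := 1 / 72 + 1 / 5000
  ta := 1 / 10 + 1 / 9 - 1 / 6 + 3 / 5000
  aa := 1 / 20 + 1 / 5000
  s1_nonneg := by norm_num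
  s2_nonneg := by norm_num
  s3_nonneg := by norm_num
  ta_nonneg := by norm_num
  aa_nonneg := by norm_num

/-- the amounts for `n = 13` -/
noncomputable def par13 : QPar where
  s1 := 1 / 132 + 1 / 5000
  s2 := 1 / 66 + 3 / 5000
  s3 := 1 / 264 + 1 / 5000
  ta := 1 / 12 + 1 / 11 - 1 / 6 + 3 / 5000
  aa := 1 / 24 + 1 / 5000
  s1_nonneg := by norm_num
  s2_nonneg := by norm_num
  s3_nonneg := by norm_num
  ta_nonneg := by norm_num
  aa_nonneg := by norm_num

theorem MAIN_fin {n : ℕ} (S : Sys ι ν 4 n) (P : QPar)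
    (key : ∀ i, S.f i + ∑ x ∈ S.N i, S.qph P i x ≤ -(1 / 5000)) : False := by
  obtain ⟨B, hB⟩ := S.sg_bdd P
  exact S.no_neg_f (φ := S.qph P) (S.ZS_of_pairs (S.sg P)) (S.Bdd_of_pairs (S.sg P) B hB)
    (c := 1 / 5000) (by norm_num) key

theorem MAIN_card {n : ℕ} (S : Sys ι ν 4 n) (hn : 11 ≤ n) (i : ι) {c : ℕ} (hc : (S.N i).card ≤ 2 * c + 1) : ((S.OutS i).card : ℝ) ≤ c := by
  have := S.out_card' hn i
  exact_mod_cast (by omega : (S.OutS i).card ≤ c)

theorem MAIN_card5 {n : ℕ} (S : Sys ι ν 4 n) (hn : 11 ≤ n) {i : ι} {w : ν} (hw : w ∈ S.N i)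
    (hw5 : 5 ≤ S.val w) {c : ℕ} (hc : (S.N i).card ≤ 2 * c + 3) :
    ((S.OutS i).card : ℝ) ≤ c := by
  have := S.out_card hn hw hw5
  exact_mod_cast (by omega : (S.OutS i).card ≤ c)

theorem no4_11 (S : Sys ι ν 4 11) : False := by
  have hn : 11 ≤ 11 := le_rfl
  apply S.MAIN_fin par11
  intro i
  by_cases hA : S.IsAt i
  · have h := S.fin_at par11 hn hA
    norm_num [par11] at h ⊢
    linarith
  by_cases hH : S.IsH i
  · obtain ⟨h, hh, hv⟩ := hH
    rcases (S.big_tile hh hv).1 with hc | hc
    · by_cases h33 : S.T33 i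
      · rcases S.fin_33 par11 hn h33 with h1 | h1
        · norm_num [par11] at h1 ⊢
          linarith
        · norm_num [par11] at h1 ⊢
          linarith
      · have h1 := S.fin_34 par11 hn ⟨hc, h, hh, hv⟩ h33
        norm_num [par11] at h1 ⊢
        linarith
    · by_cases hC : S.TC i
      · have h1 := S.fin_tc par11 hn hC
        norm_num [par11] at h1 ⊢
        linarith
      · have h1 := S.fin_t5 par11 hn ⟨hc, h, hh, hv⟩ hC
        norm_num [par11] at h1 ⊢
        linarith
  have h33 : ¬ S.T33 i := fun h => by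
    obtain ⟨-, g, hg, hv, -⟩ := h
    exact hH ⟨g, hg, hv⟩
  have hgen := S.rc_p par11 hn h33 (M := 57 / 1000) (by norm_num [par11]) (by norm_num [par11])
    (by norm_num [par11]) (by norm_num [par11]) (by norm_num [par11])
  have hge := S.card_ge i
  rcases (show (S.N i).card = 4 ∨ (S.N i).card = 5 ∨ (S.N i).card = 6 ∨ 7 ≤ (S.N i).card by
    omega) with hc | hc | hc | hc
  · rcases S.rc_p4 par11 hn hA hH hc with h1 | ⟨hf, h1⟩
    · have hf := S.f_c4_11 hA hH hc
      have := S.qph_sum_zero par11 h1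
      linarith
    · have := S.qph_sum_zero par11 h1
      norm_num [par11] at hf this ⊢
      linarith
  · obtain ⟨hf, w, hw, hw5⟩ := S.f_c5_11 hA hH hc
    have hO := S.MAIN_card5 hn hw hw5 (c := 1) (by omega)
    have := S.qph_sum_zero par11 hgen
    push_cast at hO
    nlinarith
  · rcases S.f_c6_11 hc with ⟨hf, w, hw, hw5, hw3⟩ | ⟨hf, w, hw, hw5⟩ | hf
    · have hO := S.MAIN_card5 hn hw hw5 (c := 2) (by omega)
      have h1 := S.rc_p3 par11 hn h33 hw3 hw5 (M := 502 / 10000) (by norm_num [par11])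
        (by norm_num [par11]) (by norm_num [par11])
      have := S.qph_sum_zero par11 h1
      push_cast at hO
      nlinarith
    · have hO := S.MAIN_card5 hn hw hw5 (c := 2) (by omega)
      have := S.qph_sum_zero par11 hgen
      push_cast at hO
      nlinarith
    · have hO := S.MAIN_card hn i (c := 3) (by omega)
      have := S.qph_sum_zero par11 hgen
      push_cast at hO
      nlinarith
  · have hO := S.out_card' hn i
    have hf := S.f_big_11 hc (S.OutS i).card hO
    have := S.qph_sum_zero par11 hgen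
    have h0 : (0 : ℝ) ≤ (S.OutS i).card := Nat.cast_nonneg _
    nlinarith

theorem no4_13 (S : Sys ι ν 4 13) : False := by
  have hn : 11 ≤ 13 := by norm_num
  apply S.MAIN_fin par13
  intro i
  by_cases hA : S.IsAt i
  · have h := S.fin_at par13 hn hA
    norm_num [par13] at h ⊢
    linarith
  by_cases hH : S.IsH i
  · obtain ⟨h, hh, hv⟩ := hH
    rcases (S.big_tile hh hv).1 with hc | hc
    · by_cases h33 : S.T33 i
      · rcases S.fin_33 par13 hn h33 with h1 | h1
        · norm_num [par13] at h1 ⊢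
          linarith
        · norm_num [par13] at h1 ⊢
          linarith
      · have h1 := S.fin_34 par13 hn ⟨hc, h, hh, hv⟩ h33
        norm_num [par13] at h1 ⊢
        linarith
    · by_cases hC : S.TC i
      · have h1 := S.fin_tc par13 hn hC
        norm_num [par13] at h1 ⊢
        linarith
      · have h1 := S.fin_t5 par13 hn ⟨hc, h, hh, hv⟩ hC
        norm_num [par13] at h1 ⊢
        linarith
  have h33 : ¬ S.T33 i := fun h => by
    obtain ⟨-, g, hg, hv, -⟩ := h
    exact hH ⟨g, hg, hv⟩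
  have hgen := S.rc_p par13 hn h33 (M := 42 / 1000) (by norm_num [par13]) (by norm_num [par13])
    (by norm_num [par13]) (by norm_num [par13]) (by norm_num [par13])
  have hge := S.card_ge i
  rcases (show (S.N i).card = 4 ∨ (S.N i).card = 5 ∨ (S.N i).card = 6 ∨ 7 ≤ (S.N i).card by
    omega) with hc | hc | hc | hc
  · rcases S.rc_p4 par13 hn hA hH hc with h1 | ⟨hf, h1⟩
    · have hf := S.f_c4_13 hA hH hc
      have := S.qph_sum_zero par13 h1
      linarith
    · have := S.qph_sum_zero par13 h1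
      norm_num [par13] at hf this ⊢
      linarith
  · obtain ⟨hf, w, hw, hw5⟩ := S.f_c5_13 hA hH hc
    have hO := S.MAIN_card5 hn hw hw5 (c := 1) (by omega)
    have := S.qph_sum_zero par13 hgen
    push_cast at hO
    nlinarith
  · obtain ⟨hf, w, hw, hw5⟩ := S.f_c6_13 hc
    have hO := S.MAIN_card5 hn hw hw5 (c := 2) (by omega)
    have := S.qph_sum_zero par13 hgen
    push_cast at hO
    nlinarith
  · have hO := S.out_card' hn i
    have hf := S.f_big_13 hc (S.OutS i).card hO
    have := S.qph_sum_zero par13 hgen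
    have h0 : (0 : ℝ) ≤ (S.OutS i).card := Nat.cast_nonneg _
    nlinarith

theorem no4e {n : ℕ} (S : Sys ι ν 4 n) (h : n = 11 ∨ n = 13) : False := by
  rcases h with rfl | rfl
  · exact S.no4_11
  · exact S.no4_13

end Sys

end Pool.Agent.NNb
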