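import Pool.Agent.NNq.QDef

/-!
Module BIG.  Tiles at a hub (a node of valence `n - 2`): the other nodes have `∑ (val - 2) = 4`
(`sum_val`), there are at least three of them (`card_ge`), each with `val - 2 ≥ 1`.
-/

namespace Pool.Agent.NNb

namespace Sys

variable {ι ν : Type} {n : ℕ} (S : Sys ι ν 4 n)

open Classical in
theorem big_sum {i : ι} {h : ν} (hi : h ∈ S.N i) (hh : S.val h + 2 = n) :
    ∑ x ∈ (S.N i).erase h, (S.val x - 2) = 4 := by
  have h1 := S.sum_val i
  rw [← Finset.add_sum_erase _ _ hi] at h1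
  have h2 := S.val_ge hi
  omega

theorem big_tile {i : ι} {h : ν} (hi : h ∈ S.N i) (hh : S.val h + 2 = n) :
    ((S.N i).card = 4 ∨ (S.N i).card = 5) ∧ (∀ x ∈ S.N i, x ≠ h → S.val x ≤ 4) ∧
      ((S.N i).card = 5 → ∀ x ∈ S.N i, x ≠ h → S.val x = 3) := by
  classical
  have h2 := S.big_sum hi hh
  have h3 := S.card_ge i
  have h4 : ((S.N i).erase h).card = (S.N i).card - 1 := Finset.card_erase_of_mem hi
  have h5 : ∀ x ∈ (S.N i).erase h, 1 ≤ S.val x - 2 := fun x hx => by
    have := S.val_ge (Finset.mem_of_mem_erase hx)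
    omega
  have h6 : ((S.N i).erase h).card ≤ 4 := by
    have := Finset.card_nsmul_le_sum ((S.N i).erase h) (fun x => S.val x - 2) 1 h5
    simpa [h2] using this
  have key : ∀ x ∈ S.N i, x ≠ h → (S.val x - 2) + ((S.N i).card - 2) ≤ 4 := by
    intro x hx hxh
    have hxe : x ∈ (S.N i).erase h := Finset.mem_erase.mpr ⟨hxh, hx⟩
    have h2' := h2
    rw [← Finset.add_sum_erase _ _ hxe] at h2'
    have h7 := Finset.card_nsmul_le_sum (((S.N i).erase h).erase x) (fun x => S.val x - 2) 1
      (fun z hz => h5 z (Finset.mem_of_mem_erase hz))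
    rw [Finset.card_erase_of_mem hxe] at h7
    simp only [smul_eq_mul, mul_one] at h7
    omega
  refine ⟨by omega, fun x hx hxh => ?_, fun hc x hx hxh => ?_⟩
  · have := key x hx hxh
    omega
  · have h8 := key x hx hxh
    have h9 := S.val_ge hx
    omega

theorem big_le (hn : 11 ≤ n) {i : ι} {h x : ν} (hh : S.Big h) (hi : h ∈ S.N i) (hx : x ∈ S.N i)
    (hxh : x ≠ h) : S.val x ≤ 4 := by
  rcases hh with hh | hh
  · have := (S.hub4_tile_e hn hi hh).2 x hx hxh
    omega
  · exact (S.big_tile hi hh).2.1 x hx hxh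

theorem big_val (hn : 11 ≤ n) {h : ν} (hh : S.Big h) : 9 ≤ S.val h := by
  rcases hh with hh | hh <;> omega

/-- a tile contains at most one big node -/
theorem big_unique (hn : 11 ≤ n) {i : ι} {h h' : ν} (hh : S.Big h) (hh' : S.Big h')
    (hi : h ∈ S.N i) (hi' : h' ∈ S.N i) : h = h' := by
  by_contra hne
  have h1 := S.big_le hn hh hi hi' (Ne.symm hne)
  have h2 := S.big_val hn hh'
  omega

end Sys

end Pool.Agent.NNb
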