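import Pool.Agent.NNq.Outer

/-!
Module CNT.  The nodes at which `u` is an outer tile.

Same double counting as `isX_count`, `isX_count'` in `NNb/XCnt.lean` (copy the private lemmas
`XCNT_two`, `XCNT_double`, `XCNT_le_two` with `IsX u x` replaced by `∃ h, Big h ∧ IsO u x h`, i.e. by
`x ∈ OutS u`): two nodes of `OutS u` are not partners (`isO_adj`), and the partners of a node of `OutS u`
have valence `≤ 4` (`isO_val`), so a node `w` with `val w ≥ 5` and its two partners are not in `OutS u`.
-/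

namespace Pool.Agent.NNb

namespace Sys

variable {ι ν : Type} {n : ℕ} (S : Sys ι ν 4 n)

theorem mem_OutS {u : ι} {x : ν} :
    x ∈ S.OutS u ↔ x ∈ S.N u ∧ ∃ h, S.Big h ∧ S.IsO u x h := by
  classical
  unfold OutS
  rw [Finset.mem_filter]

open Classical in
private theorem CNT_two {u : ι} {x : ν} (hx : x ∈ S.N u) :
    ((S.N u).filter (fun y => Part S.N u x y)).card = 2 := by
  obtain ⟨y, z, hyz, py, pz, hall⟩ := S.part u x hx
  have : (S.N u).filter (fun y => Part S.N u x y) = {y, z} := by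
    ext w
    simp only [Finset.mem_filter, Finset.mem_insert, Finset.mem_singleton]
    constructor
    · rintro ⟨-, hw⟩
      exact hall w hw
    · rintro (rfl | rfl)
      · exact ⟨py.2.1, py⟩
      · exact ⟨pz.2.1, pz⟩
  rw [this, Finset.card_pair hyz]

open Classical in
private theorem CNT_split (u : ι) :
    (S.OutS u).card + ((S.N u).filter (fun x => x ∉ S.OutS u)).card = (S.N u).card := by
  have hsplit := Finset.card_filter_add_card_filter_not (s := S.N u) (fun x => x ∈ S.OutS u)
  have : (S.N u).filter (fun x => x ∈ S.OutS u) = S.OutS u := by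
    ext x
    simp only [Finset.mem_filter]
    exact ⟨fun h => h.2, fun h => ⟨(S.mem_OutS.1 h).1, h⟩⟩
  rw [this] at hsplit
  exact hsplit

open Classical in
private theorem CNT_double (hn : 11 ≤ n) (u : ι) :
    2 * (S.OutS u).card =
      ∑ b ∈ (S.N u).filter (fun x => x ∉ S.OutS u),
        ((S.OutS u).filter (fun x => Part S.N u x b)).card := by
  have h := Finset.sum_card_bipartiteAbove_eq_sum_card_bipartiteBelow
    (s := S.OutS u) (t := (S.N u).filter (fun x => x ∉ S.OutS u))
    (fun x y => Part S.N u x y)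
  unfold Finset.bipartiteAbove Finset.bipartiteBelow at h
  rw [← h]
  have h1 : ∀ a ∈ S.OutS u,
      (((S.N u).filter (fun x => x ∉ S.OutS u)).filter (fun y => Part S.N u a y)).card = 2 := by
    intro a ha
    obtain ⟨ha1, g, hg, hgO⟩ := S.mem_OutS.1 ha
    rw [← S.CNT_two ha1]
    congr 1
    ext y
    simp only [Finset.mem_filter]
    constructor
    · rintro ⟨⟨h2, -⟩, h3⟩
      exact ⟨h2, h3⟩
    · rintro ⟨h2, h3⟩
      refine ⟨⟨h2, fun hy => ?_⟩, h3⟩
      obtain ⟨-, g', hg', hgO'⟩ := S.mem_OutS.1 hy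
      exact S.isO_adj hn hg hg' hgO hgO' h3
  rw [Finset.sum_congr rfl h1, Finset.sum_const, smul_eq_mul, mul_comm]

open Classical in
private theorem CNT_le_two {u : ι} {b : ν} (hb : b ∈ S.N u) :
    ((S.OutS u).filter (fun x => Part S.N u x b)).card ≤ 2 := by
  rw [← S.CNT_two hb]
  apply Finset.card_le_card
  intro x hx
  simp only [Finset.mem_filter] at hx ⊢
  exact ⟨(S.mem_OutS.1 hx.1).1, S.part_symm hx.2⟩

theorem out_card' (hn : 11 ≤ n) (u : ι) : 2 * (S.OutS u).card ≤ (S.N u).card := by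
  classical
  have hD := S.CNT_double hn u
  have hsplit := S.CNT_split u
  have h1 : ∑ b ∈ (S.N u).filter (fun x => x ∉ S.OutS u),
        ((S.OutS u).filter (fun x => Part S.N u x b)).card ≤
      ∑ _b ∈ (S.N u).filter (fun x => x ∉ S.OutS u), 2 :=
    Finset.sum_le_sum (fun b hb => S.CNT_le_two (Finset.mem_filter.1 hb).1)
  rw [Finset.sum_const, smul_eq_mul] at h1
  omega

theorem out_card (hn : 11 ≤ n) {u : ι} {w : ν} (hw : w ∈ S.N u) (hw5 : 5 ≤ S.val w) :
    2 * (S.OutS u).card + 2 ≤ (S.N u).card := by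
  classical
  have hD := S.CNT_double hn u
  have hsplit := S.CNT_split u
  set X := S.OutS u with hX
  set Y := (S.N u).filter (fun x => x ∉ X) with hY
  set c : ν → ℕ := fun b => (X.filter (fun x => Part S.N u x b)).card with hc
  have hc2 : ∀ b ∈ Y, c b ≤ 2 := fun b hb => S.CNT_le_two (Finset.mem_filter.1 hb).1
  obtain ⟨w1, w2, hw12, p1, p2, -⟩ := S.part u w hw
  have hnX : ∀ z, Part S.N u w z → z ∉ X := by
    intro z hz hzX
    obtain ⟨-, g, hg, hO⟩ := S.mem_OutS.1 hzX
    have := S.isO_val hn hg hO (S.part_symm hz)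
    omega
  have hwX : w ∉ X := by
    intro h
    obtain ⟨-, g, hg, hO⟩ := S.mem_OutS.1 h
    have := hO.2.1
    omega
  have hwY : w ∈ Y := Finset.mem_filter.2 ⟨hw, hwX⟩
  have hY1 : ∀ z, Part S.N u w z → z ∈ Y := fun z hz =>
    Finset.mem_filter.2 ⟨hz.2.1, hnX z hz⟩
  have cw : c w = 0 := by
    rw [hc]
    simp only
    rw [Finset.card_eq_zero, Finset.filter_eq_empty_iff]
    intro x hx hp
    exact hnX x (S.part_symm hp) hx
  have cz : ∀ z, Part S.N u w z → c z ≤ 1 := by
    intro z hz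
    have hzN := hz.2.1
    have h2 := S.CNT_two hzN
    have hwmem : w ∈ (S.N u).filter (fun y => Part S.N u z y) :=
      Finset.mem_filter.2 ⟨hw, S.part_symm hz⟩
    have h3 : (((S.N u).filter (fun y => Part S.N u z y)).erase w).card = 1 := by
      rw [Finset.card_erase_of_mem hwmem, h2]
    rw [← h3]
    apply Finset.card_le_card
    intro x hx
    obtain ⟨hx1, hx2⟩ := Finset.mem_filter.1 hx
    rw [Finset.mem_erase, Finset.mem_filter]
    refine ⟨?_, (S.mem_OutS.1 hx1).1, S.part_symm hx2⟩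
    rintro rfl
    exact hwX hx1
  have hsum : ∑ b ∈ Y, c b + ∑ b ∈ Y, (2 - c b) = 2 * Y.card := by
    rw [← Finset.sum_add_distrib, Finset.sum_congr rfl (g := fun _ => 2)
      (fun b hb => by have := hc2 b hb; omega), Finset.sum_const, smul_eq_mul, mul_comm]
  have hsub : ({w, w1, w2} : Finset ν) ⊆ Y := by
    intro a ha
    simp only [Finset.mem_insert, Finset.mem_singleton] at ha
    rcases ha with rfl | rfl | rfl
    · exact hwY
    · exact hY1 _ p1
    · exact hY1 _ p2
  have hthree : ∑ b ∈ ({w, w1, w2} : Finset ν), (2 - c b) ≤ ∑ b ∈ Y, (2 - c b) :=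
    Finset.sum_le_sum_of_subset hsub
  have hval : ∑ b ∈ ({w, w1, w2} : Finset ν), (2 - c b) =
      (2 - c w) + ((2 - c w1) + (2 - c w2)) := by
    rw [Finset.sum_insert, Finset.sum_pair hw12]
    simp only [Finset.mem_insert, Finset.mem_singleton, not_or]
    exact ⟨p1.2.2.1, p2.2.2.1⟩
  have c1 := cz w1 p1
  have c2 := cz w2 p2
  have hD' : 2 * X.card = ∑ b ∈ Y, c b := hD
  clear hD
  omega

end Sys

end Pool.Agent.NNb
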