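import Pool.Agent.NNq.Rcv
import Pool.Agent.NNq.Ja
import Pool.Agent.NNq.Jb
import Pool.Agent.NNq.Fb

/-!
Module FINA.  The final charge of the tiles with a node of valence `n - 1` and of the tiles of type 34.

* `fin_at`: `g ∈ N i`, `val g = n - 1`, `|N i| = 4`, the other valences are 3 (`hub4_tile_e`);
  `HUB4_quad` at `g`: two spokes `x ≠ z`; `spoke_outer` gives `u ≠ i` with `IsO u x g`, so `IsX u x`
  (`isX_iff`), and `i` sends at least `aa` at `x` (`sg_le_sn`); the same for `z`.  `rc_four`, `f_at`,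
  `qph_sum_two`.
* `fin_34`: `t34_frame`: the spoke `x` with `val x = 3`; the outer tile `u` (`spoke_outer`), `IsJ u x`.  If
  `T4 u`: `Bj x`, `bj_frame`: `i` is not of type 33, so `i = t2` and `T33 t1`: `i` sends `s1` to `t1`
  (`¬ IsJ i x` by `not_isO_spoke`).  If `IsAt u`: `isAt_tc` gives `TC i`, but `|N i| = 4`.  Otherwise
  `Vj u x` and `ld x i = s1`.  `rc_four`, `f_t4`, `qph_sum_one`.
-/

namespace Pool.Agent.NNb

namespace Sys

variable {ι ν : Type} {n : ℕ} (S : Sys ι ν 4 n) (P : QPar)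

private theorem FINA_snd {i : ι} {g x : ν} (hgv : S.val g + 1 = n) (hx : Part S.N i g x)
    (vx : S.val x = 3) : P.aa ≤ S.sn P i x := by
  classical
  obtain ⟨u, hui, hO⟩ := S.spoke_outer hx vx
  have hX : S.IsX u x := S.isX_iff.2 ⟨g, hgv, hO⟩
  refine le_trans ?_ (S.sg_le_sn P (i := u) (j := i) hO.1)
  have h2 := S.ld_nonneg P x i
  have a1 := P.s1_nonneg
  unfold sg
  rw [if_pos (c := S.IsX u x ∧ _) ⟨hX, hui.symm⟩]
  split_ifs <;> linarith

theorem fin_at (hn : 11 ≤ n) {i : ι} (h : S.IsAt i) :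
    S.f i + ∑ x ∈ S.N i, S.qph P i x ≤ 1 / ((n : ℝ) - 1) - 2 * P.aa := by
  classical
  obtain ⟨g, hg, hgv⟩ := h
  obtain ⟨hc4, hval⟩ := S.hub4_tile_e hn hg hgv
  obtain ⟨x, x0, -, hx, -, -⟩ := S.part i g hg
  obtain ⟨y, z, hz, hxy, hzy, hyg, hyx, hyz, hxz, hcov, -, -⟩ := S.HUB4_quad hc4 hx
  have h33 : ¬ S.T33 i := by
    rintro ⟨-, g', hg', hgv', -⟩
    have := S.big_unique hn (Or.inl hgv) (Or.inr hgv') hg hg'
    subst this
    omega
  have hR : ∑ y ∈ S.N i, S.rc P i y ≤ 0 := by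
    refine (Finset.sum_eq_zero (fun y _ => ?_)).le
    exact S.rc_four P hn hc4 (Or.inr ⟨g, hg, hgv⟩) h33 y
  have h1 := S.FINA_snd P hgv hx (hval x hx.2.1 hx.2.2.1.symm)
  have h2 := S.FINA_snd P hgv hz (hval z hz.2.1 hz.2.2.1.symm)
  have h3 := S.qph_sum_two P hx.2.1 hz.2.1 hxz hR h1 h2
  have h4 := S.f_at hn ⟨g, hg, hgv⟩
  linarith

theorem fin_34 (hn : 11 ≤ n) {i : ι} (h : S.T4 i) (h33 : ¬ S.T33 i) :
    S.f i + ∑ x ∈ S.N i, S.qph P i x ≤ 1 / ((n : ℝ) - 2) - 1 / 12 - P.s1 := by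
  classical
  obtain ⟨g, x, y, z, hgv, hx, hz, hxy, hzy, hxz, hyg, vx, vz, vy, hcov⟩ := S.t34_frame hn h h33
  obtain ⟨u, hui, hO⟩ := S.spoke_outer hx vx
  have hJ : S.IsJ u x := ⟨g, hgv, hO⟩
  have hs : P.s1 ≤ S.sn P i x := by
    have a1 := P.s1_nonneg
    have a5 := P.aa_nonneg
    by_cases hT : S.T4 u
    · obtain ⟨hu33, t1, t2, h12, h1u, h2u, m1, m2, h331, h332, hall⟩ := S.bj_frame hn hJ hT
      have hi1 : i ≠ t1 := fun h1 => h33 (h1 ▸ h331)
      have hnJ : ¬ S.IsJ i x := by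
        rintro ⟨g', hg', hO'⟩
        exact S.not_isO_spoke hn (Or.inr hgv) (Or.inr hg') hx hO'
      refine le_trans ?_ (S.sg_le_sn P (i := t1) (j := i) m1)
      have h2 := S.ld_nonneg P x i
      unfold sg
      rw [if_pos (c := S.Bj x ∧ _) ⟨⟨u, hJ, hT⟩, h331, hi1, h33, hnJ⟩]
      split_ifs <;> linarith
    · by_cases hA : S.IsAt u
      · exfalso
        have := (S.isAt_tc hn hJ hA hui.symm hx.2.1).1.1
        have := h.1
        omega
      · refine le_trans ?_ (S.sg_le_sn P (i := u) (j := i) hO.1)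
        have h2 : S.ld P x i = P.s1 := by
          unfold ld
          rw [if_neg h33, if_pos h]
        unfold sg
        rw [if_pos (c := S.Vj u x ∧ _) ⟨⟨hJ, hT, hA⟩, hui.symm⟩, h2]
        split_ifs <;> linarith
  have hR : ∑ y ∈ S.N i, S.rc P i y ≤ 0 := by
    refine (Finset.sum_eq_zero (fun y _ => ?_)).le
    exact S.rc_four P hn h.1 (Or.inl h) h33 y
  have h3 := S.qph_sum_one P hx.2.1 hR hs
  have h4 := S.f_t4 hn h
  linarith

end Sys

end Pool.Agent.NNb
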