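import Pool.Agent.NNb.Hub4

/-!
Module HUBE.  Quadrangles: around a node `h` of valence `n - 1`, for `n ≥ 11` (the same proof as in
`Pool/Agent/NNb/Hub4.lean`, where `n ≥ 15`).
-/

namespace Pool.Agent.NNb

namespace Sys

variable {ι ν : Type} {n : ℕ}

theorem hub4_tile_e (S : Sys ι ν 4 n) (hn : 11 ≤ n) {i : ι} {h : ν} (hi : h ∈ S.N i)
    (hh : S.val h + 1 = n) : (S.N i).card = 4 ∧ ∀ x ∈ S.N i, x ≠ h → S.val x = 3 := by
  classical
  have h1 := S.sum_val i
  rw [← Finset.add_sum_erase _ _ hi] at h1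
  have h2 : ∑ x ∈ (S.N i).erase h, (S.val x - 2) = 3 := by omega
  have h3 := S.card_ge i
  have h4 : ((S.N i).erase h).card = (S.N i).card - 1 := Finset.card_erase_of_mem hi
  have h5 : ∀ x ∈ (S.N i).erase h, 1 ≤ S.val x - 2 := fun x hx => by
    have := S.val_ge (Finset.mem_of_mem_erase hx)
    omega
  have h6 : ((S.N i).erase h).card ≤ 3 := by
    have := Finset.card_nsmul_le_sum ((S.N i).erase h) (fun x => S.val x - 2) 1 h5
    simpa [h2] using this
  refine ⟨by omega, fun x hx hxh => ?_⟩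
  have hxe : x ∈ (S.N i).erase h := Finset.mem_erase.mpr ⟨hxh, hx⟩
  rw [← Finset.add_sum_erase _ _ hxe] at h2
  have h7 := Finset.card_nsmul_le_sum (((S.N i).erase h).erase x) (fun x => S.val x - 2) 1
    (fun z hz => h5 z (Finset.mem_of_mem_erase hz))
  rw [Finset.card_erase_of_mem hxe] at h7
  have h8 := h5 x hxe
  have h9 := S.val_ge hx
  simp only [smul_eq_mul, mul_one] at h7
  omega

theorem HUB4E_prop (S : Sys ι ν 4 n) (hn : 11 ≤ n) {i u : ι} {h x z : ν} (hh : S.val h + 1 = n)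
    (hx : Part S.N i h x) (hz : Part S.N i h z) (hxz : x ≠ z) (hu : x ∈ S.N u)
    (hhu : h ∉ S.N u) (hc : (S.N u).card = 4) :
    ∃ u', z ∈ S.N u' ∧ h ∉ S.N u' ∧ (S.N u').card = 4 := by
  classical
  obtain ⟨hci, hvi⟩ := S.hub4_tile_e hn hx.1 hh
  obtain ⟨y, z', hz', hxy, hzy, hyh, hyx, hyz, hxz', hcov, -, -⟩ := S.HUB4_quad hci hx
  have hzz : z' = z := by
    rcases S.not_three_partners hx hz hz' with h1 | h1 | h1
    · exact absurd h1 hxz
    · exact h1.symm
    · exact absurd h1 hxz'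
  subst hzz
  obtain ⟨i', hi', hx', -⟩ := S.part_other hx
  obtain ⟨hci', hvi'⟩ := S.hub4_tile_e hn hx'.1 hh
  obtain ⟨y2, z2, -, hxy2, -, hy2h, hy2x, -, -, -, -, -⟩ := S.HUB4_quad hci' hx'
  have hvx : S.val x = 3 := hvi x hx.2.1 hx.2.2.1.symm
  have hvy : S.val y = 3 := hvi y hxy.2.1 hyh
  have hvy2 : S.val y2 = 3 := hvi' y2 hxy2.2.1 hy2h
  have hyu : y ∈ S.N u := S.HUB4_y hvx hx hxy hyh hu hhu
  have hy2u : y2 ∈ S.N u := S.HUB4_y hvx hx' hxy2 hy2h hu hhu
  have hyy2 : y ≠ y2 := by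
    rintro rfl
    rcases S.three i i' h x y hi'.symm hx.1 hx.2.1 hxy.2.1 hx'.1 hx'.2.1 hxy2.2.1 with h1 | h1 | h1
    · exact hx.2.2.1 h1
    · exact hyx h1.symm
    · exact hyh h1.symm
  have hui : u ≠ i := fun h1 => hhu (h1 ▸ hx.1)
  have hui' : u ≠ i' := fun h1 => hhu (h1 ▸ hx'.1)
  have hPy : Part S.N u x y := ⟨hu, hyu, hyx.symm, i, hui.symm, hx.2.1, hxy.2.1⟩
  have hPy2 : Part S.N u x y2 := ⟨hu, hy2u, hy2x.symm, i', hui'.symm, hx'.2.1, hxy2.2.1⟩
  obtain ⟨w, z3, hz3, hyw, -, hwx, hwy, hwz3, hyz3, hcovu, -, -⟩ := S.HUB4_quad hc hPy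
  have hzz3 : z3 = y2 := by
    rcases S.not_three_partners hPy hPy2 hz3 with h1 | h1 | h1
    · exact absurd h1 hyy2
    · exact h1.symm
    · exact absurd h1 hyz3
  subst hzz3
  have hNu : S.N u = {x, y, w, z3} := by
    ext v
    simp only [Finset.mem_insert, Finset.mem_singleton]
    constructor
    · exact hcovu v
    · rintro (rfl | rfl | rfl | rfl)
      · exact hu
      · exact hyu
      · exact hyw.2.1
      · exact hy2u
  have hvw : S.val w + 1 = n := by
    have h1 := S.sum_val u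
    rw [hNu, Finset.sum_insert, Finset.sum_insert, Finset.sum_insert, Finset.sum_singleton, hvx,
      hvy, hvy2] at h1
    · omega
    · simp only [Finset.mem_singleton]; exact hwz3
    · simp only [Finset.mem_insert, Finset.mem_singleton, not_or]; exact ⟨hwy.symm, hyz3⟩
    · simp only [Finset.mem_insert, Finset.mem_singleton, not_or]
      exact ⟨hyx.symm, hwx.symm, hy2x.symm⟩
  obtain ⟨u', hu'i, hzu', hyu', hhu'⟩ := S.HUB4_across hz hzy hyh
  have huu' : u ≠ u' := by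
    rintro rfl
    rcases S.three u i x y z' hui hu hyu hzu' hx.2.1 hxy.2.1 hz.2.1 with h1 | h1 | h1
    · exact hyx h1.symm
    · exact hyz h1
    · exact hxz h1
  obtain ⟨j2, hj2, hpj2, -⟩ := S.part_other hyw
  have hw' : w ∈ S.N u' := by
    rcases S.HUB4_four hvy hxy.2.1 hyu hyu' hpj2.1 hui.symm hu'i.symm huu' with h1 | h1 | h1
    · exfalso
      have hwi : w ∈ S.N i := h1 ▸ hpj2.2.1
      rcases hcov w hwi with h2 | h2 | h2 | h2
      · exact hhu (h2 ▸ hyw.2.1)
      · exact hwx h2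
      · exact hwy h2
      · rcases S.three u i x y w hui hu hyu hyw.2.1 hx.2.1 hxy.2.1 hwi with h3 | h3 | h3
        · exact hyx h3.symm
        · exact hwy h3.symm
        · exact hwx h3.symm
    · exact absurd h1 hj2
    · exact h1 ▸ hpj2.2.1
  exact ⟨u', hzu', hhu', (S.hub4_tile_e hn hw' hvw).1⟩

/-- the third tile at a partner `x` of `h` has at least 5 nodes -/
theorem hub4e (S : Sys ι ν 4 n) (hn : 11 ≤ n) {h x : ν} {i j u : ι} (hh : S.val h + 1 = n)
    (hij : i ≠ j) (hxh : x ≠ h) (hi : h ∈ S.N i) (hxi : x ∈ S.N i) (hj : h ∈ S.N j)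
    (hxj : x ∈ S.N j) (hxu : x ∈ S.N u) (hu : h ∉ S.N u) : 5 ≤ (S.N u).card := by
  classical
  by_contra hcon
  have hcu : (S.N u).card = 4 := by have := S.card_ge u; omega
  -- the set of nodes whose third tile has 4 nodes
  set B : ν → Prop := fun v => ∃ u, v ∈ S.N u ∧ h ∉ S.N u ∧ (S.N u).card = 4 with hB
  set G : Finset ι := (S.tl h).filter (fun i => ∃ x, Part S.N i h x ∧ B x) with hG
  have hGh : ∀ i ∈ G, h ∈ S.N i := fun i hi => (S.mem_tl i h).mp (Finset.mem_filter.mp hi).1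
  have hGmk : ∀ i x, Part S.N i h x → B x → i ∈ G := fun i x h1 h2 =>
    Finset.mem_filter.mpr ⟨(S.mem_tl i h).mpr h1.1, x, h1, h2⟩
  have hGne : i ∈ G := hGmk i x ⟨hi, hxi, hxh.symm, j, hij.symm, hj, hxj⟩ ⟨u, hxu, hu, hcu⟩
  -- all partners on a tile of `G`
  have hGB : ∀ i ∈ G, ∀ v, Part S.N i h v → B v := by
    intro i hi v hv
    obtain ⟨x, hx, u, hu1, hu2, hu3⟩ := (Finset.mem_filter.mp hi).2
    by_cases hxv : x = v
    · subst hxv; exact ⟨u, hu1, hu2, hu3⟩
    · exact S.HUB4E_prop hn hh hx hv hxv hu1 hu2 hu3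
  have hv3 : ∀ i ∈ G, ∀ v ∈ S.N i, v ≠ h → S.val v = 3 := fun i hi =>
    (S.hub4_tile_e hn (hGh i hi) hh).2
  set V : Finset ν := (G.biUnion S.N).erase h with hV
  set X : Finset ν := V.filter (fun v => ∃ i ∈ G, Part S.N i h v) with hX
  have hVmem : ∀ v, v ∈ V ↔ v ≠ h ∧ ∃ i ∈ G, v ∈ S.N i := by
    intro v; simp [hV, Finset.mem_erase, Finset.mem_biUnion]
  have hXmk : ∀ i ∈ G, ∀ v, Part S.N i h v → v ∈ X := by
    intro i hi v hv
    rw [hX, Finset.mem_filter, hVmem]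
    exact ⟨⟨hv.2.2.1.symm, i, hi, hv.2.1⟩, i, hi, hv⟩
  -- multiplicities
  have hmX : ∀ v ∈ X, (G.filter (fun i => v ∈ S.N i)).card = 2 := by
    intro v hv
    obtain ⟨hvV, i, hi, hp⟩ := Finset.mem_filter.mp hv
    obtain ⟨j, hj, hpj, hall⟩ := S.part_other hp
    have hjG : j ∈ G := hGmk j v hpj (hGB i hi v hp)
    rw [Finset.card_eq_two]
    refine ⟨i, j, hj.symm, ?_⟩
    ext k
    simp only [Finset.mem_filter, Finset.mem_insert, Finset.mem_singleton]
    constructor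
    · rintro ⟨hk, hvk⟩
      exact hall k (hGh k hk) hvk
    · rintro (rfl | rfl)
      · exact ⟨hi, hp.2.1⟩
      · exact ⟨hjG, hpj.2.1⟩
  have hmY : ∀ v ∈ V, v ∉ X → (G.filter (fun i => v ∈ S.N i)).card = 1 := by
    intro v hv hvX
    obtain ⟨hvh, i, hi, hvi⟩ := (hVmem v).mp hv
    rw [Finset.card_eq_one]
    refine ⟨i, ?_⟩
    ext k
    simp only [Finset.mem_filter, Finset.mem_singleton]
    constructor
    · rintro ⟨hk, hvk⟩
      by_contra hki
      exact hvX (hXmk i hi v ⟨hGh i hi, hvi, hvh.symm, k, hki, hGh k hk, hvk⟩)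
    · rintro rfl
      exact ⟨hi, hvi⟩
  -- tiles of `G`
  have hquad : ∀ i ∈ G, ∃ x y z, Part S.N i h x ∧ Part S.N i h z ∧ Part S.N i x y ∧
      Part S.N i z y ∧ y ≠ h ∧ y ≠ x ∧ y ≠ z ∧ x ≠ z ∧
      (∀ v, v ∈ S.N i → v = h ∨ v = x ∨ v = y ∨ v = z) ∧ ¬ Part S.N i h y := by
    intro i hi
    obtain ⟨x, hx, -⟩ := (Finset.mem_filter.mp hi).2
    obtain ⟨y, z, h1, h2, h3, h4, h5, h6, h7, h8, h9, -⟩ :=
      S.HUB4_quad (S.hub4_tile_e hn (hGh i hi) hh).1 hx
    exact ⟨x, y, z, hx, h1, h2, h3, h4, h5, h6, h7, h8, h9⟩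
  have hcX : ∀ i ∈ G, (X.filter (fun v => v ∈ S.N i)).card = 2 := by
    intro i hi
    obtain ⟨x, y, z, hx, hz, hxy, hzy, hyh, hyx, hyz, hxz, hcov, hny⟩ := hquad i hi
    rw [Finset.card_eq_two]
    refine ⟨x, z, hxz, ?_⟩
    ext v
    simp only [Finset.mem_filter, Finset.mem_insert, Finset.mem_singleton]
    constructor
    · rintro ⟨hv, hvi⟩
      rcases hcov v hvi with h1 | h1 | h1 | h1
      · exfalso
        have := (Finset.mem_filter.mp hv).1
        rw [hVmem] at this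
        exact this.1 h1
      · exact Or.inl h1
      · exfalso
        subst h1
        obtain ⟨hvV, k, hk, hp⟩ := Finset.mem_filter.mp hv
        by_cases hki : k = i
        · subst hki; exact hny hp
        · exact hny ⟨hGh i hi, hvi, hyh.symm, k, hki, hp.1, hp.2.1⟩
      · exact Or.inr h1
    · rintro (rfl | rfl)
      · exact ⟨hXmk i hi _ hx, hx.2.1⟩
      · exact ⟨hXmk i hi _ hz, hz.2.1⟩
  have hXsub : X ⊆ V := Finset.filter_subset _ _
  have hXG : X.card = G.card := by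
    have h1 : ∑ v ∈ X, (G.filter (fun i => v ∈ S.N i)).card =
        ∑ i ∈ G, (X.filter (fun v => v ∈ S.N i)).card := by
      simp only [Finset.card_filter]
      exact Finset.sum_comm
    rw [Finset.sum_congr rfl hmX, Finset.sum_congr rfl hcX, Finset.sum_const,
      Finset.sum_const] at h1
    simpa using h1
  have hVG : V.card = 2 * G.card := by
    have h1 : ∑ v ∈ V, (G.filter (fun i => v ∈ S.N i)).card =
        ∑ i ∈ G, (V.filter (fun v => v ∈ S.N i)).card := by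
      simp only [Finset.card_filter]
      exact Finset.sum_comm
    have h2 : ∀ i ∈ G, (V.filter (fun v => v ∈ S.N i)).card = 3 := by
      intro i hi
      have h3 : V.filter (fun v => v ∈ S.N i) = (S.N i).erase h := by
        ext v
        simp only [Finset.mem_filter, hVmem, Finset.mem_erase]
        constructor
        · rintro ⟨⟨h3, -⟩, h4⟩; exact ⟨h3, h4⟩
        · rintro ⟨h3, h4⟩; exact ⟨⟨h3, i, hi, h4⟩, h4⟩
      rw [h3, Finset.card_erase_of_mem (hGh i hi), (S.hub4_tile_e hn (hGh i hi) hh).1]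
    rw [Finset.sum_congr rfl h2, Finset.sum_const] at h1
    have h4 : ∑ v ∈ V, (G.filter (fun i => v ∈ S.N i)).card = 2 * X.card + (V \ X).card := by
      rw [← Finset.sum_sdiff hXsub, Finset.sum_congr rfl hmX]
      have h5 : ∀ v ∈ V \ X, (G.filter (fun i => v ∈ S.N i)).card = 1 := fun v hv =>
        hmY v (Finset.mem_sdiff.mp hv).1 (Finset.mem_sdiff.mp hv).2
      rw [Finset.sum_congr rfl h5, Finset.sum_const, Finset.sum_const]
      simp only [smul_eq_mul]
      ring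
    have h6 : (V \ X).card = V.card - X.card := Finset.card_sdiff_of_subset hXsub
    have h7 := Finset.card_le_card hXsub
    simp only [smul_eq_mul] at h1
    omega
  -- the third tiles
  set D : Finset ι := X.biUnion (fun v => (S.tl v).filter (fun k => h ∉ S.N k)) with hD
  have hDle : D.card ≤ X.card := by
    have := Finset.card_biUnion_le_card_mul X
      (fun v => (S.tl v).filter (fun k => h ∉ S.N k)) 1 (fun v hv => by
        obtain ⟨hvV, i, hi, hp⟩ := Finset.mem_filter.mp hv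
        rw [Finset.card_le_one]
        intro a ha b hb
        rw [Finset.mem_filter, S.mem_tl] at ha hb
        exact S.HUB4_third (hv3 i hi v hp.2.1 hp.2.2.1.symm) hp ha.1 ha.2 hb.1 hb.2)
    simpa using this
  have hDmem : ∀ k, k ∈ D ↔ ∃ v ∈ X, v ∈ S.N k ∧ h ∉ S.N k := by
    intro k
    simp only [hD, Finset.mem_biUnion, Finset.mem_filter, S.mem_tl]
  have hD4 : ∀ k ∈ D, (S.N k).card = 4 := by
    intro k hk
    obtain ⟨v, hv, hvk, hhk⟩ := (hDmem k).mp hk
    obtain ⟨hvV, i, hi, hp⟩ := Finset.mem_filter.mp hv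
    obtain ⟨u, hu1, hu2, hu3⟩ := hGB i hi v hp
    rw [S.HUB4_third (hv3 i hi v hp.2.1 hp.2.2.1.symm) hp hvk hhk hu1 hu2]
    exact hu3
  -- all tiles at the nodes of `V`
  have hcovT : ∀ v ∈ V, ∀ k ∈ S.tl v, k ∈ G ∪ D := by
    intro v hv k hk
    rw [S.mem_tl] at hk
    rw [Finset.mem_union]
    by_cases hhk : h ∈ S.N k
    · left
      obtain ⟨hvh, i, hi, hvi⟩ := (hVmem v).mp hv
      by_cases hki : k = i
      · rw [hki]; exact hi
      · have hp : Part S.N i h v := ⟨hGh i hi, hvi, hvh.symm, k, hki, hhk, hk⟩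
        exact hGmk k v ⟨hhk, hk, hvh.symm, i, fun h1 => hki h1.symm, hGh i hi, hvi⟩
          (hGB i hi v hp)
    · right
      rw [hDmem]
      by_cases hvX : v ∈ X
      · exact ⟨v, hvX, hk, hhk⟩
      · obtain ⟨hvh, i, hi, hvi⟩ := (hVmem v).mp hv
        obtain ⟨x, y, z, hx, hz, hxy, hzy, hyh, hyx, hyz, hxz, hcov, hny⟩ := hquad i hi
        have hvy : v = y := by
          rcases hcov v hvi with h1 | h1 | h1 | h1
          · exact absurd h1 hvh
          · exact absurd (hXmk i hi _ (h1 ▸ hx)) hvX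
          · exact h1
          · exact absurd (hXmk i hi _ (h1 ▸ hz)) hvX
        subst hvy
        obtain ⟨a, ha1, ha2, ha3, ha4⟩ := S.HUB4_across hx hxy hyh
        obtain ⟨b, hb1, hb2, hb3, hb4⟩ := S.HUB4_across hz hzy hyh
        have hab : a ≠ b := by
          rintro rfl
          rcases S.three a i x v z ha1 ha2 ha3 hb2 hx.2.1 hvi hz.2.1 with h1 | h1 | h1
          · exact hyx h1.symm
          · exact hyz h1
          · exact hxz h1
        rcases S.HUB4_four (hv3 i hi v hvi hvh) hvi ha3 hb3 hk ha1.symm hb1.symm hab with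
          h1 | h1 | h1
        · exact absurd (h1 ▸ hGh i hi) hhk
        · subst h1; exact ⟨x, hXmk i hi x hx, ha2, ha4⟩
        · subst h1; exact ⟨z, hXmk i hi z hz, hb2, hb4⟩
  -- the angle sum
  have hang : ∀ k v, v ∈ V.filter (fun v => v ∈ S.N k) → 0 ≤ S.ang k v := fun k v hv =>
    (S.ang_pos (Finset.mem_filter.mp hv).2).le
  have hsum : ∑ v ∈ V, (2 * Real.pi) =
      ∑ k ∈ G ∪ D, ∑ v ∈ V.filter (fun v => v ∈ S.N k), S.ang k v := by
    have h1 : ∀ v ∈ V, 2 * Real.pi = ∑ k ∈ (G ∪ D).filter (fun k => v ∈ S.N k), S.ang k v := by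
      intro v hv
      obtain ⟨hvh, i, hi, hvi⟩ := (hVmem v).mp hv
      rw [← S.ang_node i v hvi]
      refine Finset.sum_congr ?_ fun _ _ => rfl
      ext k
      rw [Finset.mem_filter, S.mem_tl]
      exact ⟨fun hk => ⟨hcovT v hv k ((S.mem_tl k v).mpr hk), hk⟩, fun hk => hk.2⟩
    rw [Finset.sum_congr rfl h1]
    simp only [Finset.sum_filter]
    exact Finset.sum_comm
  have hGb : ∀ k ∈ G, ∑ v ∈ V.filter (fun v => v ∈ S.N k), S.ang k v < 2 * Real.pi := by
    intro k hk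
    have h1 := S.ang_N k
    rw [(S.hub4_tile_e hn (hGh k hk) hh).1, ← Finset.add_sum_erase _ _ (hGh k hk)] at h1
    have h2 := S.ang_pos (hGh k hk)
    have h3 : ∑ v ∈ V.filter (fun v => v ∈ S.N k), S.ang k v ≤
        ∑ v ∈ (S.N k).erase h, S.ang k v := by
      refine Finset.sum_le_sum_of_subset_of_nonneg ?_ ?_
      · intro v hv
        rw [Finset.mem_filter, hVmem] at hv
        exact Finset.mem_erase.mpr ⟨hv.1.1, hv.2⟩
      · intro v hv _
        exact (S.ang_pos (Finset.mem_of_mem_erase hv)).le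
    push_cast at h1
    linarith
  have hDb : ∀ k ∈ D, ∑ v ∈ V.filter (fun v => v ∈ S.N k), S.ang k v ≤ 2 * Real.pi := by
    intro k hk
    have h1 := S.ang_N k
    rw [hD4 k hk] at h1
    have h3 : ∑ v ∈ V.filter (fun v => v ∈ S.N k), S.ang k v ≤ ∑ v ∈ S.N k, S.ang k v := by
      refine Finset.sum_le_sum_of_subset_of_nonneg ?_ ?_
      · intro v hv
        exact (Finset.mem_filter.mp hv).2
      · intro v hv _
        exact (S.ang_pos hv).le
    push_cast at h1
    linarith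
  have h1 : ∑ k ∈ G ∪ D, ∑ v ∈ V.filter (fun v => v ∈ S.N k), S.ang k v ≤
      ∑ k ∈ G, ∑ v ∈ V.filter (fun v => v ∈ S.N k), S.ang k v +
      ∑ k ∈ D, ∑ v ∈ V.filter (fun v => v ∈ S.N k), S.ang k v := by
    rw [← Finset.sum_union_inter]
    have : 0 ≤ ∑ k ∈ G ∩ D, ∑ v ∈ V.filter (fun v => v ∈ S.N k), S.ang k v :=
      Finset.sum_nonneg fun k _ => Finset.sum_nonneg fun v hv => hang k v hv
    linarith
  have h2 : ∑ k ∈ G, ∑ v ∈ V.filter (fun v => v ∈ S.N k), S.ang k v < ∑ k ∈ G, 2 * Real.pi :=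
    Finset.sum_lt_sum_of_nonempty ⟨i, hGne⟩ hGb
  have h3 : ∑ k ∈ D, ∑ v ∈ V.filter (fun v => v ∈ S.N k), S.ang k v ≤ ∑ k ∈ D, 2 * Real.pi :=
    Finset.sum_le_sum hDb
  rw [Finset.sum_const, nsmul_eq_mul] at h2 h3 hsum
  have h4 : (V.card : ℝ) = 2 * G.card := by rw [hVG]; push_cast; ring
  have h5 : (D.card : ℝ) ≤ G.card := by
    have := hDle.trans_eq hXG
    exact_mod_cast this
  have hpi := Real.pi_pos
  rw [h4] at hsum
  have h6 : (D.card : ℝ) * (2 * Real.pi) ≤ G.card * (2 * Real.pi) :=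
    mul_le_mul_of_nonneg_right h5 (by positivity)
  nlinarith

end Sys

end Pool.Agent.NNb
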