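import Pool.Agent.NNq.BigT

/-!
Module OUT.  Outer tiles at 3-valent nodes.
-/

namespace Pool.Agent.NNb

namespace Sys

variable {ι ν : Type} {n : ℕ} (S : Sys ι ν 4 n)

/-- the two other tiles at `x` have `h` as a partner of `x` -/
theorem isO_part {u i : ι} {x h : ν} (hO : S.IsO u x h) (hx : x ∈ S.N i) (hi : i ≠ u) :
    Part S.N i h x := by
  classical
  obtain ⟨hxu, hv, hhu, hall⟩ := hO
  have hu : u ∈ S.tl x := (S.mem_tl u x).2 hxu
  have hi' : i ∈ S.tl x := (S.mem_tl i x).2 hx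
  have hc : (S.tl x).card = 3 := hv
  obtain ⟨t, ht, htn⟩ := Finset.exists_mem_notMem_of_card_lt_card
    (show ({u, i} : Finset ι).card < (S.tl x).card by
      rw [Finset.card_pair hi.symm, hc]; norm_num)
  have htu : t ≠ u := by rintro rfl; simp at htn
  have hti : t ≠ i := by rintro rfl; simp at htn
  refine ⟨hall i hi' hi, hx, ?_, t, hti, hall t ht htu, (S.mem_tl t x).1 ht⟩
  rintro rfl
  exact hhu hxu

/-- a 3-valent partner `x` of `h` has an outer tile -/
theorem spoke_outer {i : ι} {x h : ν} (hp : Part S.N i h x) (hv : S.val x = 3) :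
    ∃ u, u ≠ i ∧ S.IsO u x h := by
  classical
  obtain ⟨j, hj, hpj, hall⟩ := S.part_other hp
  have hi' : i ∈ S.tl x := (S.mem_tl i x).2 hp.2.1
  have hj' : j ∈ S.tl x := (S.mem_tl j x).2 hpj.2.1
  have hc : (S.tl x).card = 3 := hv
  obtain ⟨u, hu, hun⟩ := Finset.exists_mem_notMem_of_card_lt_card
    (show ({i, j} : Finset ι).card < (S.tl x).card by
      rw [Finset.card_pair hj.symm, hc]; norm_num)
  have hui : u ≠ i := by rintro rfl; simp at hun
  have huj : u ≠ j := by rintro rfl; simp at hun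
  have hxu : x ∈ S.N u := (S.mem_tl u x).1 hu
  refine ⟨u, hui, hxu, hv, fun hh => ?_, fun k hk hku => ?_⟩
  · rcases hall u hh hxu with h1 | h1
    · exact hui h1
    · exact huj h1
  · rcases S.HUB4_four hv hp.2.1 hpj.2.1 hxu ((S.mem_tl k x).1 hk) hj.symm hui.symm huj.symm with
      h1 | h1 | h1
    · rw [h1]; exact hp.1
    · rw [h1]; exact hpj.1
    · exact absurd h1 hku

/-- the situation at an outer tile -/
theorem isO_frame {u : ι} {x h : ν} (hO : S.IsO u x h) :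
    ∃ t1 t2 q1 q2, t1 ≠ t2 ∧ t1 ≠ u ∧ t2 ≠ u ∧ Part S.N t1 h x ∧ Part S.N t1 x q1 ∧ q1 ≠ h ∧
      Part S.N t2 h x ∧ Part S.N t2 x q2 ∧ q2 ≠ h ∧ Part S.N u x q1 ∧ Part S.N u x q2 ∧ q1 ≠ q2 ∧
      (∀ i, x ∈ S.N i → i = t1 ∨ i = t2 ∨ i = u) ∧ (∀ y, Part S.N u x y → y = q1 ∨ y = q2) := by
  obtain ⟨q1, q2, hq12, hq1, hq2, hall⟩ := S.part u x hO.1
  obtain ⟨t1, ht1, hp1, -⟩ := S.part_other hq1
  obtain ⟨t2, ht2, hp2, -⟩ := S.part_other hq2
  have h1 : Part S.N t1 h x := S.isO_part hO hp1.1 ht1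
  have h2 : Part S.N t2 h x := S.isO_part hO hp2.1 ht2
  have hqh1 : q1 ≠ h := fun hh => hO.2.2.1 (hh ▸ hq1.2.1)
  have hqh2 : q2 ≠ h := fun hh => hO.2.2.1 (hh ▸ hq2.2.1)
  have ht12 : t1 ≠ t2 := by
    rintro rfl
    rcases S.three t1 u x q1 q2 ht1 hp1.1 hp1.2.1 hp2.2.1 hq1.1 hq1.2.1 hq2.2.1 with h3 | h3 | h3
    · exact hq1.2.2.1 h3
    · exact hq12 h3
    · exact hq2.2.2.1 h3
  refine ⟨t1, t2, q1, q2, ht12, ht1, ht2, h1, hp1, hqh1, h2, hp2, hqh2, hq1, hq2, hq12,
    fun i hi => ?_, hall⟩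
  exact S.HUB4_four hO.2.1 hp1.1 hp2.1 hO.1 hi ht12 ht1 ht2

/-- the other partner `q` of `x` on a hub tile lies on the outer tile -/
theorem isO_across {u t : ι} {x h q : ν} (hO : S.IsO u x h) (ht : t ≠ u) (hq : Part S.N t x q)
    (hqh : q ≠ h) : Part S.N u x q := by
  have h1 := S.isO_part hO hq.1 ht
  exact ⟨hO.1, S.HUB4_y hO.2.1 h1 hq hqh hO.1 hO.2.2.1, hq.2.2.1, t, ht, hq.1, hq.2.1⟩

theorem isO_unique (hn : 11 ≤ n) {u u' : ι} {x h h' : ν} (hh : S.Big h) (hh' : S.Big h')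
    (hO : S.IsO u x h) (hO' : S.IsO u' x h') : u = u' ∧ h = h' := by
  obtain ⟨t1, t2, q1, q2, h12, h1u, h2u, p1, -, -, p2, -, -, -, -, -, hall, -⟩ := S.isO_frame hO
  have key : ∀ t, t ≠ u → t ≠ u' → x ∈ S.N t → h = h' := fun t ht ht' hx =>
    S.big_unique hn hh hh' (S.isO_part hO hx ht).1 (S.isO_part hO' hx ht').1
  have heq : h = h' := by
    by_cases h3 : t1 = u'
    · exact key t2 h2u (fun h4 => h12 (h3.trans h4.symm)) p2.2.1
    · exact key t1 h1u h3 p1.2.1
  refine ⟨?_, heq⟩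
  by_contra hne
  exact hO'.2.2.1 (heq ▸ (S.isO_part hO hO'.1 (Ne.symm hne)).1)

/-- the partners on the outer tile -/
theorem isO_val (hn : 11 ≤ n) {u : ι} {x h y : ν} (hh : S.Big h) (hO : S.IsO u x h)
    (hp : Part S.N u x y) : S.val y ≤ 4 := by
  obtain ⟨j, hj, hpj, -⟩ := S.part_other hp
  have h1 := S.isO_part hO hpj.1 hj
  exact S.big_le hn hh h1.1 hpj.2.1 (fun h2 => hO.2.2.1 (h2 ▸ hp.2.1))

/-- a tile with at most five nodes has no three pairwise partners -/
theorem no_triangle {j : ι} (hc : (S.N j).card ≤ 5) {x y z : ν} (h1 : Part S.N j x y)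
    (h2 : Part S.N j y z) (h3 : Part S.N j z x) : False := by
  classical
  have hc4 := S.card_ge j
  have hne : ({x, y, z} : Finset ν).card ≤ 3 := Finset.card_le_three
  obtain ⟨a, ha, han⟩ := Finset.exists_mem_notMem_of_card_lt_card
    (show ({x, y, z} : Finset ν).card < (S.N j).card by omega)
  simp only [Finset.mem_insert, Finset.mem_singleton, not_or] at han
  obtain ⟨hax, hay, haz⟩ := han
  obtain ⟨b, c, hbc, hb, hc', -⟩ := S.part j a ha
  have key : ∀ w, Part S.N j a w → w ≠ x ∧ w ≠ y ∧ w ≠ z := by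
    intro w hw
    refine ⟨?_, ?_, ?_⟩
    · rintro rfl
      rcases S.not_three_partners h1 (S.part_symm h3) (S.part_symm hw) with h | h | h
      · exact h2.2.2.1 h
      · exact haz h.symm
      · exact hay h.symm
    · rintro rfl
      rcases S.not_three_partners (S.part_symm h1) h2 (S.part_symm hw) with h | h | h
      · exact h3.2.2.1 h.symm
      · exact haz h.symm
      · exact hax h.symm
    · rintro rfl
      rcases S.not_three_partners (S.part_symm h2) h3 (S.part_symm hw) with h | h | h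
      · exact h1.2.2.1 h.symm
      · exact hax h.symm
      · exact hay h.symm
  obtain ⟨hb1, hb2, hb3⟩ := key b hb
  obtain ⟨hc1, hc2, hc3⟩ := key c hc'
  have hsub : ({a, b, c, x, y, z} : Finset ν) ⊆ S.N j := by
    intro w hw
    simp only [Finset.mem_insert, Finset.mem_singleton] at hw
    rcases hw with rfl | rfl | rfl | rfl | rfl | rfl
    · exact ha
    · exact hb.2.1
    · exact hc'.2.1
    · exact h1.1
    · exact h2.1
    · exact h3.1
  have h6 : ({a, b, c, x, y, z} : Finset ν).card = 6 := by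
    rw [Finset.card_insert_of_notMem, Finset.card_insert_of_notMem, Finset.card_insert_of_notMem,
      Finset.card_eq_three.mpr ⟨x, y, z, h1.2.2.1, h3.2.2.1.symm, h2.2.2.1, rfl⟩]
    · simp only [Finset.mem_insert, Finset.mem_singleton, not_or]
      exact ⟨hc1, hc2, hc3⟩
    · simp only [Finset.mem_insert, Finset.mem_singleton, not_or]
      exact ⟨hbc, hb1, hb2, hb3⟩
    · simp only [Finset.mem_insert, Finset.mem_singleton, not_or]
      exact ⟨hb.2.2.1, hc'.2.2.1, hax, hay, haz⟩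
  have := Finset.card_le_card hsub
  omega

theorem big_card (hn : 11 ≤ n) {i : ι} {h : ν} (hh : S.Big h) (hi : h ∈ S.N i) :
    (S.N i).card ≤ 5 := by
  rcases hh with hh | hh
  · have := (S.hub4_tile_e hn hi hh).1
    omega
  · rcases (S.big_tile hi hh).1 with h1 | h1 <;> omega

/-- nodes at which `u` is an outer tile are not partners -/
theorem isO_adj (hn : 11 ≤ n) {u : ι} {x y h h' : ν} (hh : S.Big h) (hh' : S.Big h')
    (hO : S.IsO u x h) (hO' : S.IsO u y h') : ¬ Part S.N u x y := by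
  intro hp
  obtain ⟨j, hj, hpj, -⟩ := S.part_other hp
  have p1 := S.isO_part hO hpj.1 hj
  have p2 := S.isO_part hO' hpj.2.1 hj
  have heq := S.big_unique hn hh hh' p1.1 p2.1
  subst heq
  exact S.no_triangle (S.big_card hn hh p1.1) p1 hpj (S.part_symm p2)

/-- a tile at a big node `h` is not the outer tile at a partner of `h` -/
theorem not_isO_spoke (hn : 11 ≤ n) {i : ι} {x h h' : ν} (hh : S.Big h) (hh' : S.Big h')
    (hp : Part S.N i h x) : ¬ S.IsO i x h' := by
  intro hO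
  obtain ⟨j, hj, hpj, -⟩ := S.part_other hp
  have p := S.isO_part hO hpj.2.1 hj
  have := S.big_unique hn hh hh' hpj.1 p.1
  subst this
  exact hO.2.2.1 hp.1

theorem isX_iff {u : ι} {x : ν} : S.IsX u x ↔ ∃ h, S.val h + 1 = n ∧ S.IsO u x h := by
  constructor
  · rintro ⟨h1, h2, h, h3, h4, h5⟩
    exact ⟨h, h3, h1, h2, h4, h5⟩
  · rintro ⟨h, h3, h1, h2, h4, h5⟩
    exact ⟨h1, h2, h, h3, h4, h5⟩

/-- the outer tile at a partner of a node of valence `n - 1` has at least five nodes -/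
theorem isX_card_e (hn : 11 ≤ n) {u : ι} {x : ν} (h : S.IsX u x) : 5 ≤ (S.N u).card := by
  obtain ⟨g, hg, hO⟩ := S.isX_iff.1 h
  obtain ⟨t1, t2, q1, q2, h12, h1u, h2u, p1, -, -, p2, -, -, -, -, -, -, -⟩ := S.isO_frame hO
  exact S.hub4e hn hg h12 p1.2.2.1.symm p1.1 p1.2.1 p2.1 p2.2.1 hO.1 hO.2.2.1

end Sys

end Pool.Agent.NNb
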