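import Pool.Agent.NNq.Hub4e
import Pool.Agent.NNb.XCnt
import Pool.Agent.NNb.FPhi
import Pool.Agent.NNb.Disch

/-!
Quadrangles, `n = 11` and `n = 13` (definitions only; nothing to prove here).

Valences only.  `A`-tiles contain a node of valence `n - 1` (valences `3, 3, 3, n - 1`).  A *hub* is a
node of valence `n - 2`; the other nodes of a tile at a hub have valences `3, 3, 4` (four nodes: the tile
is of type 33 if both partners of the hub have valence 3, otherwise of type 34) or `3, 3, 3, 3` (five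
nodes, type 5).  `IsO u x h`: the *outer tile* `u` at the 3-valent node `x` with respect to `h`.
-/

namespace Pool.Agent.NNb

namespace Sys

variable {ι ν : Type} {n : ℕ}

/-- `x` is a 3-valent node of `u`, and the two other tiles at `x` contain `h`, which is not on `u` -/
def IsO (S : Sys ι ν 4 n) (u : ι) (x h : ν) : Prop :=
  x ∈ S.N u ∧ S.val x = 3 ∧ h ∉ S.N u ∧ ∀ i ∈ S.tl x, i ≠ u → h ∈ S.N i

/-- nodes of valence `n - 1` or `n - 2` -/
def Big (S : Sys ι ν 4 n) (h : ν) : Prop := S.val h + 1 = n ∨ S.val h + 2 = n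

/-- outer tile at a spoke of a hub -/
def IsJ (S : Sys ι ν 4 n) (u : ι) (x : ν) : Prop := ∃ h, S.val h + 2 = n ∧ S.IsO u x h

/-- tiles at a hub -/
def IsH (S : Sys ι ν 4 n) (i : ι) : Prop := ∃ h ∈ S.N i, S.val h + 2 = n

/-- tiles with a node of valence `n - 1` -/
def IsAt (S : Sys ι ν 4 n) (i : ι) : Prop := ∃ g ∈ S.N i, S.val g + 1 = n

/-- tiles at a hub with four nodes -/
def T4 (S : Sys ι ν 4 n) (i : ι) : Prop := (S.N i).card = 4 ∧ S.IsH i

/-- type 33 -/
def T33 (S : Sys ι ν 4 n) (i : ι) : Prop :=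
  (S.N i).card = 4 ∧ ∃ h ∈ S.N i, S.val h + 2 = n ∧ ∀ y, Part S.N i h y → S.val y = 3

/-- type 5 -/
def T5 (S : Sys ι ν 4 n) (i : ι) : Prop := (S.N i).card = 5 ∧ S.IsH i

/-- type 5 and receiving charge from `A`-tiles -/
def TC (S : Sys ι ν 4 n) (i : ι) : Prop := S.T5 i ∧ ∃ x, S.IsX i x

/-- the outer tile at `x` has four nodes and contains a hub -/
def Bj (S : Sys ι ν 4 n) (x : ν) : Prop := ∃ u, S.IsJ u x ∧ S.T4 u

/-- the outer tile `u` at `x` receives charge -/
def Vj (S : Sys ι ν 4 n) (u : ι) (x : ν) : Prop := S.IsJ u x ∧ ¬ S.T4 u ∧ ¬ S.IsAt u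

/-- some other node of `i` satisfies `Bj` -/
def Sb (S : Sys ι ν 4 n) (i : ι) (x : ν) : Prop := ∃ x' ∈ S.N i, x' ≠ x ∧ S.Bj x'

open Classical in
/-- the nodes of `u` at which `u` is an outer tile -/
noncomputable def OutS (S : Sys ι ν 4 n) (u : ι) : Finset ν :=
  (S.N u).filter (fun x => ∃ h, S.Big h ∧ S.IsO u x h)

end Sys

/-- the amounts of the transfers -/
structure QPar where
  s1 : ℝ
  s2 : ℝ
  s3 : ℝ
  ta : ℝ
  aa : ℝ
  s1_nonneg : 0 ≤ s1
  s2_nonneg : 0 ≤ s2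
  s3_nonneg : 0 ≤ s3
  ta_nonneg : 0 ≤ ta
  aa_nonneg : 0 ≤ aa

namespace Sys

variable {ι ν : Type} {n : ℕ}

open Classical in
/-- what the tile `i` sends at its spoke `x` to the outer tile -/
noncomputable def ld (S : Sys ι ν 4 n) (P : QPar) (x : ν) (i : ι) : ℝ :=
  if S.T33 i then (if S.Sb i x then P.s2 else P.s3) else if S.T4 i then P.s1
    else if S.TC i then P.ta else 0

open Classical in
/-- the transfer from `i` to `j` at the node `x` -/
noncomputable def sg (S : Sys ι ν 4 n) (P : QPar) (x : ν) (i j : ι) : ℝ :=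
  (if S.IsX j x ∧ i ≠ j then P.aa else 0) + (if S.Vj j x ∧ i ≠ j then S.ld P x i else 0) +
    (if S.Bj x ∧ S.T33 j ∧ i ≠ j ∧ ¬ S.T33 i ∧ ¬ S.IsJ i x then P.s1 else 0)

/-- received by `j` at `x` -/
noncomputable def rc (S : Sys ι ν 4 n) (P : QPar) (j : ι) (x : ν) : ℝ := ∑ i ∈ S.tl x, S.sg P x i j

/-- sent by `j` at `x` -/
noncomputable def sn (S : Sys ι ν 4 n) (P : QPar) (j : ι) (x : ν) : ℝ := ∑ i ∈ S.tl x, S.sg P x j i

/-- the node potential -/
noncomputable def qph (S : Sys ι ν 4 n) (P : QPar) (j : ι) (x : ν) : ℝ :=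
  ∑ i ∈ S.tl x, (S.sg P x i j - S.sg P x j i)

end Sys

end Pool.Agent.NNb
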