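import Pool.Agent.NNq.Outer
import Pool.Agent.NNb.Cyc

/-!
Module QTY.  The types of the tiles at a hub `h` (`val h = n - 2`).

* `spoke_q`: by `big_tile` the tile `t` has 5 nodes (then `val q = 3`, `¬ T33 t` by the number of nodes)
  or 4 nodes: `HUB4_quad` with `h, x, y, z`, `q = y` (`not_three_partners`), `sum_val` gives
  `val y + val z = 7`, both `≥ 3`; `val y = 4`, `val z = 3`: type 33 (the partners of `h` are `x, z`);
  `val y = 3`, `val z = 4`: not type 33 (the hub of `t` is `h` by `big_unique`).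
* `not33_of_three`: `i` contains the hub `h` of `IsJ u x` and a second partner `q` of `x` on `i`; `q` is a
  partner of `x` on `u` (`isO_across`), so `val q = 3`; use `spoke_q`.
* `t33_frame`, `t34_frame`: `HUB4_quad` at the hub and `sum_val`.
* `t5_frame`: `cyc5` and case distinction (or directly).
-/

namespace Pool.Agent.NNb

namespace Sys

variable {ι ν : Type} {n : ℕ} (S : Sys ι ν 4 n)

/-- the sum of the valences of a tile with four nodes -/
theorem quad_sum {i : ι} {h x y z : ν} (hp : Part S.N i h x) (hz : Part S.N i h z)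
    (hxy : Part S.N i x y) (hyz : y ≠ z) (hyh : y ≠ h) (hxz : x ≠ z)
    (hcov : ∀ v, v ∈ S.N i → v = h ∨ v = x ∨ v = y ∨ v = z) :
    S.val h + S.val x + S.val y + S.val z = n + 8 := by
  classical
  have hN : S.N i = {h, x, y, z} := by
    ext v
    simp only [Finset.mem_insert, Finset.mem_singleton]
    constructor
    · exact hcov v
    · rintro (rfl | rfl | rfl | rfl)
      · exact hp.1
      · exact hp.2.1
      · exact hxy.2.1
      · exact hz.2.1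
  have h1 := S.sum_val i
  have h2 := S.val_ge hp.1
  have h3 := S.val_ge hp.2.1
  have h4 := S.val_ge hxy.2.1
  have h5 := S.val_ge hz.2.1
  rw [hN, Finset.sum_insert, Finset.sum_insert, Finset.sum_insert, Finset.sum_singleton] at h1
  · omega
  · simp only [Finset.mem_singleton]; exact hyz
  · simp only [Finset.mem_insert, Finset.mem_singleton, not_or]; exact ⟨hxy.2.2.1, hxz⟩
  · simp only [Finset.mem_insert, Finset.mem_singleton, not_or]
    exact ⟨hp.2.2.1, hyh.symm, hz.2.2.1⟩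

theorem spoke_q (hn : 11 ≤ n) {t : ι} {h x q : ν} (hh : S.val h + 2 = n) (hp : Part S.N t h x)
    (hv : S.val x = 3) (hq : Part S.N t x q) (hqh : q ≠ h) :
    (S.T33 t ∧ S.val q = 4) ∨ (¬ S.T33 t ∧ S.val q = 3) := by
  classical
  obtain ⟨hcard, hle, h5⟩ := S.big_tile hp.1 hh
  rcases hcard with hc | hc
  · obtain ⟨y, z, hz, hxy, hzy, hyh, hyx, hyz, hxz, hcov, hnhy, hnxz⟩ := S.HUB4_quad hc hp
    have hqy : q = y := by
      rcases S.not_three_partners (S.part_symm hp) hxy hq with h1 | h1 | h1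
      · exact absurd h1.symm hyh
      · exact h1.symm
      · exact absurd h1.symm hqh
    subst hqy
    have hsum := S.quad_sum hp hz hxy hyz hyh hxz hcov
    have h3q := S.val_ge hxy.2.1
    have h3z := S.val_ge hz.2.1
    have hall : ∀ v, Part S.N t h v → v = x ∨ v = z := fun v hv' => by
      rcases S.not_three_partners hp hz hv' with h1 | h1 | h1
      · exact absurd h1 hxz
      · exact Or.inr h1.symm
      · exact Or.inl h1.symm
    have h4q := hle q hxy.2.1 hyh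
    rcases (show S.val q = 4 ∨ S.val q = 3 by omega) with h4 | h4
    · left
      refine ⟨⟨hc, h, hp.1, hh, fun v hv' => ?_⟩, h4⟩
      rcases hall v hv' with rfl | rfl
      · exact hv
      · omega
    · right
      refine ⟨?_, h4⟩
      rintro ⟨-, h', hh', hv', hall'⟩
      have : h' = h := S.big_unique hn (Or.inr hv') (Or.inr hh) hh' hp.1
      subst this
      have := hall' z hz
      omega
  · right
    refine ⟨fun h6 => ?_, h5 hc q hq.2.1 hqh⟩
    have := h6.1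
    omega

theorem not33_of_three (hn : 11 ≤ n) {u i : ι} {x : ν} (hJ : S.IsJ u x) (hi : i ≠ u)
    (hx : x ∈ S.N i) (h3 : ∀ y, Part S.N u x y → S.val y = 3) : ¬ S.T33 i := by
  obtain ⟨h, hh, hO⟩ := hJ
  have hp := S.isO_part hO hx hi
  obtain ⟨a, b, hab, ha, hb, -⟩ := S.part i x hx
  have key : ∀ q, Part S.N i x q → q ≠ h → ¬ S.T33 i := by
    intro q hq hqh h33
    have h1 := h3 q (S.isO_across hO hi hq hqh)
    rcases S.spoke_q hn hh hp hO.2.1 hq hqh with h2 | h2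
    · omega
    · exact h2.1 h33
  by_cases h1 : a = h
  · exact key b hb (fun h2 => hab (h1.trans h2.symm))
  · exact key a ha h1

private theorem QTY_frame {t : ι} {h : ν} (hn : 11 ≤ n) (hc : (S.N t).card = 4) (hh : h ∈ S.N t)
    (hv : S.val h + 2 = n) :
    ∃ x y z, Part S.N t h x ∧ Part S.N t h z ∧ Part S.N t x y ∧
      Part S.N t z y ∧ x ≠ z ∧ y ≠ h ∧ S.val x + S.val y + S.val z = 10 ∧ 3 ≤ S.val x ∧
      3 ≤ S.val y ∧ 3 ≤ S.val z ∧ (∀ v ∈ S.N t, v = h ∨ v = x ∨ v = y ∨ v = z) ∧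
      ∀ v, Part S.N t h v → v = x ∨ v = z := by
  obtain ⟨x, z0, -, hx, -, -⟩ := S.part t h hh
  obtain ⟨y, z, hz, hxy, hzy, hyh, hyx, hyz, hxz, hcov, hnhy, hnxz⟩ := S.HUB4_quad hc hx
  have hsum := S.quad_sum hx hz hxy hyz hyh hxz hcov
  refine ⟨x, y, z, hx, hz, hxy, hzy, hxz, hyh, by omega, S.val_ge hx.2.1, S.val_ge hxy.2.1,
    S.val_ge hz.2.1, hcov, fun v hv' => ?_⟩
  rcases S.not_three_partners hx hz hv' with h1 | h1 | h1
  · exact absurd h1 hxz
  · exact Or.inr h1.symm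
  · exact Or.inl h1.symm

theorem t33_frame (hn : 11 ≤ n) {t : ι} (ht : S.T33 t) :
    ∃ h x y z, S.val h + 2 = n ∧ Part S.N t h x ∧ Part S.N t h z ∧ Part S.N t x y ∧
      Part S.N t z y ∧ x ≠ z ∧ y ≠ h ∧ S.val x = 3 ∧ S.val z = 3 ∧ S.val y = 4 ∧
      ∀ v ∈ S.N t, v = h ∨ v = x ∨ v = y ∨ v = z := by
  obtain ⟨hc, h, hh, hv, hall⟩ := ht
  obtain ⟨x, y, z, hx, hz, hxy, hzy, hxz, hyh, hsum, -, -, -, hcov, -⟩ :=
    S.QTY_frame hn hc hh hv
  have h1 := hall x hx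
  have h2 := hall z hz
  exact ⟨h, x, y, z, hv, hx, hz, hxy, hzy, hxz, hyh, h1, h2, by omega, hcov⟩

theorem t34_frame (hn : 11 ≤ n) {t : ι} (ht : S.T4 t) (h3 : ¬ S.T33 t) :
    ∃ h x y z, S.val h + 2 = n ∧ Part S.N t h x ∧ Part S.N t h z ∧ Part S.N t x y ∧
      Part S.N t z y ∧ x ≠ z ∧ y ≠ h ∧ S.val x = 3 ∧ S.val z = 4 ∧ S.val y = 3 ∧
      ∀ v ∈ S.N t, v = h ∨ v = x ∨ v = y ∨ v = z := by
  obtain ⟨hc, h, hh, hv⟩ := ht
  obtain ⟨x, y, z, hx, hz, hxy, hzy, hxz, hyh, hsum, gx, gy, gz, hcov, hall⟩ :=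
    S.QTY_frame hn hc hh hv
  have hne : ¬ (S.val x = 3 ∧ S.val z = 3) := by
    rintro ⟨h1, h2⟩
    refine h3 ⟨hc, h, hh, hv, fun v hv' => ?_⟩
    rcases hall v hv' with rfl | rfl
    · exact h1
    · exact h2
  rcases (show (S.val x = 3 ∧ S.val z = 4 ∧ S.val y = 3) ∨
      (S.val x = 4 ∧ S.val z = 3 ∧ S.val y = 3) by omega) with h4 | h4
  · exact ⟨h, x, y, z, hv, hx, hz, hxy, hzy, hxz, hyh, h4.1, h4.2.1, h4.2.2, hcov⟩
  · refine ⟨h, z, y, x, hv, hz, hx, hzy, hxy, hxz.symm, hyh, h4.2.1, h4.1, h4.2.2,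
      fun v hv' => ?_⟩
    rcases hcov v hv' with h5 | h5 | h5 | h5
    · exact Or.inl h5
    · exact Or.inr (Or.inr (Or.inr h5))
    · exact Or.inr (Or.inr (Or.inl h5))
    · exact Or.inr (Or.inl h5)

private theorem QTY_rot {t : ι} {h b x2 x3 x4 x5 : ν} (hb : b ∈ S.N t) (hbh : b ≠ h)
    (hnp : ¬ Part S.N t h b) (d12 : h ≠ x2) (d13 : h ≠ x3) (d14 : h ≠ x4) (d15 : h ≠ x5)
    (d23 : x2 ≠ x3) (d24 : x2 ≠ x4) (d25 : x2 ≠ x5) (d34 : x3 ≠ x4) (d35 : x3 ≠ x5)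
    (d45 : x4 ≠ x5) (hcov : ∀ v ∈ S.N t, v = h ∨ v = x2 ∨ v = x3 ∨ v = x4 ∨ v = x5)
    (p12 : Part S.N t h x2) (p23 : Part S.N t x2 x3) (p34 : Part S.N t x3 x4)
    (p45 : Part S.N t x4 x5) (p51 : Part S.N t x5 h) :
    ∃ a c d, Part S.N t h a ∧ Part S.N t a b ∧ Part S.N t b c ∧ Part S.N t c d ∧
      Part S.N t d h ∧ a ≠ c ∧ a ≠ d ∧ b ≠ d ∧ c ≠ h ∧
      ∀ v ∈ S.N t, v = h ∨ v = a ∨ v = b ∨ v = c ∨ v = d := by
  rcases hcov b hb with h1 | h1 | h1 | h1 | h1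
  · exact absurd h1 hbh
  · exact absurd (h1 ▸ p12) hnp
  · subst h1
    exact ⟨x2, x4, x5, p12, p23, p34, p45, p51, d24, d25, d35, d14.symm, hcov⟩
  · subst h1
    refine ⟨x5, x3, x2, S.part_symm p51, S.part_symm p45, S.part_symm p34, S.part_symm p23,
      S.part_symm p12, d35.symm, d25.symm, d24.symm, d13.symm, fun v hv => ?_⟩
    rcases hcov v hv with h1 | h1 | h1 | h1 | h1
    · exact Or.inl h1
    · exact Or.inr (Or.inr (Or.inr (Or.inr h1)))
    · exact Or.inr (Or.inr (Or.inr (Or.inl h1)))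
    · exact Or.inr (Or.inr (Or.inl h1))
    · exact Or.inr (Or.inl h1)
  · exact absurd (h1 ▸ S.part_symm p51) hnp

theorem t5_frame (hn : 11 ≤ n) {t : ι} {h b : ν} (hc : (S.N t).card = 5) (hh : S.val h + 2 = n)
    (hh' : h ∈ S.N t) (hb : b ∈ S.N t) (hbh : b ≠ h) (hnp : ¬ Part S.N t h b) :
    ∃ a c d, Part S.N t h a ∧ Part S.N t a b ∧ Part S.N t b c ∧ Part S.N t c d ∧
      Part S.N t d h ∧ a ≠ c ∧ a ≠ d ∧ b ≠ d ∧ c ≠ h ∧ S.val a = 3 ∧ S.val b = 3 ∧
      S.val c = 3 ∧ S.val d = 3 ∧ ∀ v ∈ S.N t, v = h ∨ v = a ∨ v = b ∨ v = c ∨ v = d := by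
  obtain ⟨x1, x2, x3, x4, x5, d12, d13, d14, d15, d23, d24, d25, d34, d35, d45, hcov, p12, p23,
    p34, p45, p51⟩ := S.cyc5 hc
  have key : ∃ a c d, Part S.N t h a ∧ Part S.N t a b ∧ Part S.N t b c ∧ Part S.N t c d ∧
      Part S.N t d h ∧ a ≠ c ∧ a ≠ d ∧ b ≠ d ∧ c ≠ h ∧
      ∀ v ∈ S.N t, v = h ∨ v = a ∨ v = b ∨ v = c ∨ v = d := by
    rcases (hcov h).1 hh' with h1 | h1 | h1 | h1 | h1
    · subst h1
      exact S.QTY_rot hb hbh hnp d12 d13 d14 d15 d23 d24 d25 d34 d35 d45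
        (fun v hv => (hcov v).1 hv) p12 p23 p34 p45 p51
    · subst h1
      refine S.QTY_rot hb hbh hnp d23 d24 d25 d12.symm d34 d35 d13.symm d45 d14.symm d15.symm
        (fun v hv => ?_) p23 p34 p45 p51 p12
      rcases (hcov v).1 hv with h1 | h1 | h1 | h1 | h1 <;> simp [h1]
    · subst h1
      refine S.QTY_rot hb hbh hnp d34 d35 d13.symm d23.symm d45 d14.symm d24.symm d15.symm
        d25.symm d12 (fun v hv => ?_) p34 p45 p51 p12 p23
      rcases (hcov v).1 hv with h1 | h1 | h1 | h1 | h1 <;> simp [h1]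
    · subst h1
      refine S.QTY_rot hb hbh hnp d45 d14.symm d24.symm d34.symm d15.symm d25.symm d35.symm d12
        d13 d23 (fun v hv => ?_) p45 p51 p12 p23 p34
      rcases (hcov v).1 hv with h1 | h1 | h1 | h1 | h1 <;> simp [h1]
    · subst h1
      refine S.QTY_rot hb hbh hnp d15.symm d25.symm d35.symm d45.symm d12 d13 d14 d23 d24 d34
        (fun v hv => ?_) p51 p12 p23 p34 p45
      rcases (hcov v).1 hv with h1 | h1 | h1 | h1 | h1 <;> simp [h1]
  obtain ⟨a, c, d, q1, q2, q3, q4, q5, e1, e2, e3, e4, hcov'⟩ := key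
  have h5 := (S.big_tile hh' hh).2.2 hc
  exact ⟨a, c, d, q1, q2, q3, q4, q5, e1, e2, e3, e4, h5 a q1.2.1 q1.2.2.1.symm, h5 b hb hbh,
    h5 c q4.1 e4, h5 d q5.1 q5.2.2.1, hcov'⟩

end Sys

end Pool.Agent.NNb
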