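import Pool.Agent.NNq.Qty
import Pool.Agent.NNq.Cnt
import Pool.Agent.NNq.Jb

/-!
Module RCV.  Received and sent charge.

`sg x i j` has three terms: `aa` if `IsX j x`; `ld x i` if `Vj j x`; `s1` if `Bj x`, `T33 j`, `¬ T33 i`,
`¬ IsJ i x` (always `i ≠ j`).
* `rc_zero`: if `x ∉ OutS j` then neither `IsX j x` (`isX_iff`) nor `Vj j x` (`IsJ`).
* `rc_isX`, `rc_isJ`: `val x = 3`, so `tl x` has two elements `≠ j`; not both `IsX j x` and `IsJ j x`
  (`isO_unique`: the same `h`).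
* `rc_four`: `IsX j x` is impossible (`isX_card_e`), `Vj j x` too.
* `rc_33`: only the third term, at most one sender: at a node with `Bj x` one of the three tiles is the
  outer tile with `IsJ`, one is `j`.
* `sum_rc_le`: by `rc_zero`, sum over `OutS j`.
-/

namespace Pool.Agent.NNb

namespace Sys

variable {ι ν : Type} {n : ℕ} (S : Sys ι ν 4 n) (P : QPar)

theorem ld_nonneg (x : ν) (i : ι) : 0 ≤ S.ld P x i := by
  unfold ld
  split_ifs
  · exact P.s2_nonneg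
  · exact P.s3_nonneg
  · exact P.s1_nonneg
  · exact P.ta_nonneg
  · exact le_refl _

theorem sg_nonneg (x : ν) (i j : ι) : 0 ≤ S.sg P x i j := by
  unfold sg
  have h1 := P.aa_nonneg
  have h2 := S.ld_nonneg P x i
  have h3 := P.s1_nonneg
  split_ifs <;> linarith

theorem sg_bdd : ∃ B, ∀ x i j, |S.sg P x i j| ≤ B := by
  refine ⟨P.aa + (P.s1 + P.s2 + P.s3 + P.ta) + P.s1, fun x i j => ?_⟩
  rw [abs_of_nonneg (S.sg_nonneg P x i j)]
  have a1 := P.s1_nonneg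
  have a2 := P.s2_nonneg
  have a3 := P.s3_nonneg
  have a4 := P.ta_nonneg
  have a5 := P.aa_nonneg
  have h1 : S.ld P x i ≤ P.s1 + P.s2 + P.s3 + P.ta := by
    unfold ld
    split_ifs <;> linarith
  unfold sg
  split_ifs <;> linarith

theorem qph_eq (j : ι) (x : ν) : S.qph P j x = S.rc P j x - S.sn P j x := by
  unfold qph rc sn
  rw [Finset.sum_sub_distrib]

theorem rc_nonneg (j : ι) (x : ν) : 0 ≤ S.rc P j x := by
  exact Finset.sum_nonneg (fun i _ => S.sg_nonneg P x i j)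

theorem sn_nonneg (j : ι) (x : ν) : 0 ≤ S.sn P j x := by
  exact Finset.sum_nonneg (fun i _ => S.sg_nonneg P x j i)

theorem sg_le_sn {i j : ι} {x : ν} (hx : x ∈ S.N i) : S.sg P x j i ≤ S.sn P j x := by
  exact Finset.single_le_sum (f := fun i => S.sg P x j i) (fun k _ => S.sg_nonneg P x j k)
    ((S.mem_tl i x).2 hx)

theorem rc_zero {j : ι} {x : ν} (h33 : ¬ S.T33 j) (hx : x ∈ S.N j) (hO : x ∉ S.OutS j) :
    S.rc P j x = 0 := by
  have hX : ¬ S.IsX j x := by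
    intro h
    obtain ⟨g, hg, hgO⟩ := S.isX_iff.1 h
    exact hO (S.mem_OutS.2 ⟨hx, g, Or.inl hg, hgO⟩)
  have hV : ¬ S.Vj j x := by
    rintro ⟨⟨g, hg, hgO⟩, -⟩
    exact hO (S.mem_OutS.2 ⟨hx, g, Or.inr hg, hgO⟩)
  refine Finset.sum_eq_zero (fun i _ => ?_)
  unfold sg
  rw [if_neg (fun h => hX h.1), if_neg (fun h => hV h.1), if_neg (fun h => h33 h.2.1)]
  simp

private theorem RCV_notboth (hn : 11 ≤ n) {j : ι} {x : ν} (hX : S.IsX j x) (hJ : S.IsJ j x) :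
    False := by
  obtain ⟨g, hg, hgO⟩ := S.isX_iff.1 hX
  obtain ⟨h, hh, hO⟩ := hJ
  have := (S.isO_unique hn (Or.inl hg) (Or.inr hh) hgO hO).2
  subst this
  omega

private theorem RCV_two {j : ι} {x : ν} {F : ι → ℝ} {M : ℝ} (hv : S.val x = 3)
    (hx : x ∈ S.N j) (h0 : F j ≤ 0) (h1 : ∀ i, i ≠ j → x ∈ S.N i → F i ≤ M) :
    ∑ i ∈ S.tl x, F i ≤ 2 * M := by
  classical
  rw [← Finset.add_sum_erase _ _ ((S.mem_tl j x).2 hx)]
  have hc : ((S.tl x).erase j).card = 2 := by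
    rw [Finset.card_erase_of_mem ((S.mem_tl j x).2 hx)]
    have : (S.tl x).card = 3 := hv
    omega
  have h2 := Finset.sum_le_card_nsmul ((S.tl x).erase j) F M (fun i hi =>
    h1 i (Finset.ne_of_mem_erase hi) ((S.mem_tl i x).1 (Finset.mem_of_mem_erase hi)))
  rw [hc, nsmul_eq_mul] at h2
  push_cast at h2
  linarith

private theorem RCV_one {j i0 : ι} {x : ν} {F : ι → ℝ} {M : ℝ} (hv : S.val x = 3)
    (hx : x ∈ S.N j) (hi : i0 ≠ j) (hx0 : x ∈ S.N i0) (h0 : F j ≤ 0) (h00 : F i0 ≤ 0)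
    (h1 : ∀ i, i ≠ j → i ≠ i0 → x ∈ S.N i → F i ≤ M) :
    ∑ i ∈ S.tl x, F i ≤ M := by
  classical
  have m0 : i0 ∈ (S.tl x).erase j := Finset.mem_erase.2 ⟨hi, (S.mem_tl i0 x).2 hx0⟩
  rw [← Finset.add_sum_erase _ _ ((S.mem_tl j x).2 hx), ← Finset.add_sum_erase _ _ m0]
  have hc : (((S.tl x).erase j).erase i0).card = 1 := by
    rw [Finset.card_erase_of_mem m0, Finset.card_erase_of_mem ((S.mem_tl j x).2 hx)]
    have : (S.tl x).card = 3 := hv
    omega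
  have h2 := Finset.sum_le_card_nsmul (((S.tl x).erase j).erase i0) F M (fun i hi' =>
    h1 i (Finset.ne_of_mem_erase (Finset.mem_of_mem_erase hi')) (Finset.ne_of_mem_erase hi')
      ((S.mem_tl i x).1 (Finset.mem_of_mem_erase (Finset.mem_of_mem_erase hi'))))
  rw [hc, one_nsmul] at h2
  linarith

private theorem RCV_le_ld (hn : 11 ≤ n) {j : ι} {x : ν} (h33 : ¬ S.T33 j) (hJ : S.IsJ j x)
    (i : ι) (_hi : i ≠ j) : S.sg P x i j ≤ S.ld P x i := by
  have hX : ¬ S.IsX j x := fun hX => S.RCV_notboth hn hX hJ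
  have h2 := S.ld_nonneg P x i
  unfold sg
  rw [if_neg (fun h => hX h.1), if_neg (c := _ ∧ S.T33 j ∧ _) (fun h => h33 h.2.1)]
  split_ifs
  · linarith
  · linarith

theorem rc_isX (hn : 11 ≤ n) {j : ι} {x : ν} (h33 : ¬ S.T33 j) (hX : S.IsX j x) :
    S.rc P j x ≤ 2 * P.aa := by
  have hV : ¬ S.Vj j x := by
    rintro ⟨hJ, -⟩
    exact S.RCV_notboth hn hX hJ
  refine S.RCV_two hX.2.1 hX.1 ?_ (fun i hi hx => ?_)
  · unfold sg
    rw [if_neg (fun h => h.2 rfl), if_neg (fun h => h.2 rfl), if_neg (fun h => h.2.2.1 rfl)]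
    simp
  · unfold sg
    rw [if_pos ⟨hX, hi⟩, if_neg (fun h => hV h.1), if_neg (fun h => h33 h.2.1)]
    simp

theorem rc_isJ (hn : 11 ≤ n) {j : ι} {x : ν} (h33 : ¬ S.T33 j) (hJ : S.IsJ j x) {M : ℝ}
    (hM : ∀ i, i ≠ j → x ∈ S.N i → S.ld P x i ≤ M) : S.rc P j x ≤ 2 * M := by
  obtain ⟨h, hh, hO⟩ := hJ
  refine S.RCV_two hO.2.1 hO.1 ?_ (fun i hi hx => ?_)
  · unfold sg
    rw [if_neg (fun h => h.2 rfl), if_neg (fun h => h.2 rfl), if_neg (fun h => h.2.2.1 rfl)]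
    simp
  · exact (S.RCV_le_ld P hn h33 ⟨h, hh, hO⟩ i hi).trans (hM i hi hx)

/-- one of the two hub tiles sends nothing -/
theorem rc_isJ_one (hn : 11 ≤ n) {j i0 : ι} {x : ν} (h33 : ¬ S.T33 j) (hJ : S.IsJ j x) {M : ℝ}
    (hM : ∀ i, i ≠ j → x ∈ S.N i → S.ld P x i ≤ M) (hi : i0 ≠ j) (hx : x ∈ S.N i0)
    (h0 : S.ld P x i0 ≤ 0) : S.rc P j x ≤ M := by
  obtain ⟨h, hh, hO⟩ := hJ
  refine S.RCV_one hO.2.1 hO.1 hi hx ?_ ?_ (fun i h1 h2 hx => ?_)
  · unfold sg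
    rw [if_neg (fun h => h.2 rfl), if_neg (fun h => h.2 rfl), if_neg (fun h => h.2.2.1 rfl)]
    simp
  · exact (S.RCV_le_ld P hn h33 ⟨h, hh, hO⟩ i0 hi).trans h0
  · exact (S.RCV_le_ld P hn h33 ⟨h, hh, hO⟩ i h1).trans (hM i h1 hx)

theorem rc_four (hn : 11 ≤ n) {j : ι} (hc : (S.N j).card = 4) (h : S.T4 j ∨ S.IsAt j)
    (h33 : ¬ S.T33 j) (x : ν) : S.rc P j x = 0 := by
  have hX : ¬ S.IsX j x := by
    intro h
    have := S.isX_card_e hn h
    omega
  have hV : ¬ S.Vj j x := by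
    rintro ⟨-, h1, h2⟩
    rcases h with h | h
    · exact h1 h
    · exact h2 h
  refine Finset.sum_eq_zero (fun i _ => ?_)
  unfold sg
  rw [if_neg (fun h => hX h.1), if_neg (fun h => hV h.1), if_neg (fun h => h33 h.2.1)]
  simp

theorem rc_33 (hn : 11 ≤ n) {j : ι} (h33 : S.T33 j) {x : ν} (hx : x ∈ S.N j) :
    S.rc P j x ≤ P.s1 ∧ (¬ S.Bj x → S.rc P j x = 0) := by
  classical
  have hX : ¬ S.IsX j x := by
    intro h
    have := S.isX_card_e hn h
    have := h33.1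
    omega
  have hT4 : S.T4 j := by
    obtain ⟨h1, g, hg, hgv, -⟩ := h33
    exact ⟨h1, g, hg, hgv⟩
  have hV : ¬ S.Vj j x := fun h => h.2.1 hT4
  have hsg : ∀ i, S.sg P x i j =
      (if S.Bj x ∧ S.T33 j ∧ i ≠ j ∧ ¬ S.T33 i ∧ ¬ S.IsJ i x then P.s1 else 0) := by
    intro i
    unfold sg
    rw [if_neg (fun h => hX h.1), if_neg (fun h => hV h.1), zero_add, zero_add]
  refine ⟨?_, fun hB => ?_⟩
  · by_cases hB : S.Bj x
    · obtain ⟨u, hJ, hT⟩ := hB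
      obtain ⟨hu33, t1, t2, h12, h1u, h2u, m1, m2, h331, h332, hall⟩ := S.bj_frame hn hJ hT
      have hj1 : j = t1 := by
        rcases hall j hx with h | h | h
        · exact h
        · exact absurd (h ▸ h33) h332
        · exact absurd (h ▸ h33) hu33
      unfold rc
      rw [← Finset.add_sum_erase _ _ ((S.mem_tl t2 x).2 m2)]
      have h0 : ∑ i ∈ (S.tl x).erase t2, S.sg P x i j = 0 := by
        refine Finset.sum_eq_zero (fun i hi => ?_)
        rw [hsg]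
        rw [if_neg]
        rintro ⟨-, -, h3, h4, h5⟩
        rcases hall i ((S.mem_tl i x).1 (Finset.mem_of_mem_erase hi)) with h | h | h
        · exact h3 (h.trans hj1.symm)
        · exact (Finset.ne_of_mem_erase hi) h
        · exact h5 (h ▸ hJ)
      rw [h0, add_zero, hsg]
      split_ifs
      · exact le_refl _
      · exact P.s1_nonneg
    · have h0 : S.rc P j x = 0 := Finset.sum_eq_zero (fun i _ => by
        rw [hsg, if_neg (fun h => hB h.1)])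
      rw [h0]
      exact P.s1_nonneg
  · exact Finset.sum_eq_zero (fun i _ => by rw [hsg, if_neg (fun h => hB h.1)])

theorem sum_rc_le (hn : 11 ≤ n) {j : ι} (h33 : ¬ S.T33 j) {M : ℝ}
    (hM : ∀ x ∈ S.OutS j, S.rc P j x ≤ M) :
    ∑ x ∈ S.N j, S.rc P j x ≤ (S.OutS j).card * M := by
  have hsub : S.OutS j ⊆ S.N j := fun x hx => (S.mem_OutS.1 hx).1
  rw [← Finset.sum_subset hsub (fun x hx hx' => S.rc_zero P h33 hx hx')]
  have := Finset.sum_le_card_nsmul (S.OutS j) (fun x => S.rc P j x) M hM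
  rwa [nsmul_eq_mul] at this

/-- the charge of a tile which sends at least `c` at the node `x` -/
theorem qph_sum_one {j : ι} {x : ν} (hx : x ∈ S.N j) {R c : ℝ}
    (hR : ∑ y ∈ S.N j, S.rc P j y ≤ R) (hc : c ≤ S.sn P j x) :
    ∑ y ∈ S.N j, S.qph P j y ≤ R - c := by
  have h1 : ∑ y ∈ S.N j, S.qph P j y = ∑ y ∈ S.N j, S.rc P j y - ∑ y ∈ S.N j, S.sn P j y := by
    rw [← Finset.sum_sub_distrib]
    exact Finset.sum_congr rfl (fun y _ => S.qph_eq P j y)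
  have h2 : S.sn P j x ≤ ∑ y ∈ S.N j, S.sn P j y :=
    Finset.single_le_sum (f := fun y => S.sn P j y) (fun y _ => S.sn_nonneg P j y) hx
  rw [h1]
  linarith

theorem qph_sum_zero {j : ι} {R : ℝ} (hR : ∑ y ∈ S.N j, S.rc P j y ≤ R) :
    ∑ y ∈ S.N j, S.qph P j y ≤ R := by
  have h1 : ∑ y ∈ S.N j, S.qph P j y = ∑ y ∈ S.N j, S.rc P j y - ∑ y ∈ S.N j, S.sn P j y := by
    rw [← Finset.sum_sub_distrib]
    exact Finset.sum_congr rfl (fun y _ => S.qph_eq P j y)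
  have h2 : 0 ≤ ∑ y ∈ S.N j, S.sn P j y := Finset.sum_nonneg (fun y _ => S.sn_nonneg P j y)
  rw [h1]
  linarith

theorem qph_sum_two {j : ι} {x x' : ν} (hx : x ∈ S.N j) (hx' : x' ∈ S.N j) (hxx : x ≠ x')
    {R c c' : ℝ} (hR : ∑ y ∈ S.N j, S.rc P j y ≤ R) (hc : c ≤ S.sn P j x)
    (hc' : c' ≤ S.sn P j x') : ∑ y ∈ S.N j, S.qph P j y ≤ R - c - c' := by
  classical
  have h1 : ∑ y ∈ S.N j, S.qph P j y = ∑ y ∈ S.N j, S.rc P j y - ∑ y ∈ S.N j, S.sn P j y := by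
    rw [← Finset.sum_sub_distrib]
    exact Finset.sum_congr rfl (fun y _ => S.qph_eq P j y)
  have h2 : ∑ y ∈ ({x, x'} : Finset ν), S.sn P j y ≤ ∑ y ∈ S.N j, S.sn P j y := by
    refine Finset.sum_le_sum_of_subset_of_nonneg (fun y hy => ?_)
      (fun y _ _ => S.sn_nonneg P j y)
    simp only [Finset.mem_insert, Finset.mem_singleton] at hy
    rcases hy with rfl | rfl
    · exact hx
    · exact hx'
  rw [Finset.sum_pair hxx] at h2
  rw [h1]
  linarith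

end Sys

end Pool.Agent.NNb
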